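import Pool.Agent.Y570.KP.Complete
import Pool.Agent.TH41.BL.DEL
import Pool.Agent.TH41.BL.PK9

/-!
# MP_0430e4_lc: the ends of the range of distances, for all `k`-point semidefinite bounds

Let `κ(δ)` be the exponent of Delsarte's linear programming bound for binary codes at the relative
distance `δ`. It is also the exponent of every fixed level `k` of the `k`-point semidefinite bounds
(Schrijver's three-point bound and its generalisations), with or without a reduction to constant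
weight codes. We determine the behaviour of `κ` at both ends of `(0, 1/2)`.

* Small distances. With `q = 2 p (1 - p)` the classical bound of Elias and Bassalygo at the distance
  `q` is `1 - H(p)`. We show `κ(q) < 1 - H(p) ≤ κ(q (1 - 2 q) / (1 - q ^ 2))`, so these methods
  improve the bound of Elias and Bassalygo at most by the shift `q ↦ q - 2 q ^ 2 + …` of the
  distance. In particular `H(δ / 2) < 1 - κ(δ) ≤ (1 + 6 δ) H(δ / 2)` for `δ ≤ 1 / 10`: as `δ → 0`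
  they are not better than the Hamming bound in the leading term, which is half of the leading term
  `H(δ)` of the bound of Gilbert and Varshamov.
* Large distances. The first bound of McEliece, Rodemich, Rumsey and Welch is nearly optimal for
  these methods: `(1 - 4 ε ^ 2) H(ε ^ 2) ≤ κ(1 / 2 - ε) ≤ H(ε ^ 2) / (1 - 2 ε ^ 2)` for all
  `0 < ε < 1 / 2`.

The proof evaluates the parametrisation of the curve of the exponents by sums of hyperbolic secants
(starting result `LinearProgrammingLimit`; for the `k`-point bounds the starting files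
`Pool.Agent.Y570.KP`) at the two ends.
-/

open Filter Topology

namespace Pool.Agent.Results.MP_0430e4_lc.EndsOfTheRange

/-- `A(n,d)`: the largest size of a binary code of length `n` with minimum distance at least `d`. -/
noncomputable def A (n d : ℕ) : ℕ :=
  sSup {m | ∃ C : Finset (Fin n → Bool),
    (∀ x ∈ C, ∀ y ∈ C, x ≠ y → d ≤ hammingDist x y) ∧ C.card = m}

/-- The binary Krawtchouk polynomial `K_j` of length `n` at `w`,
`∑_i (-1)^i (w choose i) (n - w choose j - i)`. -/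
def krawtchouk (n j w : ℕ) : ℤ :=
  ∑ i ∈ Finset.range (j + 1), (-1) ^ i * (w.choose i : ℤ) * ((n - w).choose (j - i) : ℤ)

/-- `f(w) = ∑_{j ≤ n} l_j K_j(w)`. -/
noncomputable def combination (n : ℕ) (l : ℕ → ℝ) (w : ℕ) : ℝ :=
  ∑ j ∈ Finset.range (n + 1), l j * (krawtchouk n j w : ℝ)

/-- The feasible solutions of Delsarte's linear program for binary codes of length `n` and minimum
distance `d`. Each of them gives the bound `A(n, d) ≤ f(0) / l_0`. -/
structure IsFeasible (n d : ℕ) (l : ℕ → ℝ) : Prop where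
  nonneg : ∀ j, 0 ≤ l j
  pos : 0 < l 0
  nonpos : ∀ w : ℕ, d ≤ w → w ≤ n → combination n l w ≤ 0

/-- The value of Delsarte's linear program: the infimum of the bounds `f(0) / l_0`. -/
noncomputable def LP (n d : ℕ) : ℝ :=
  sInf {v : ℝ | ∃ l : ℕ → ℝ, IsFeasible n d l ∧ v = combination n l 0 / l 0}

/-- The pseudo-probability of `D ∪ S ⊆ C, E ∩ C = ∅`: `∑_{F ⊆ E} (-1)^|F| y(D ∪ F ∪ S)`. -/
def pseudoProb {n : ℕ} (y : Finset (Fin n → Bool) → ℝ) (D E S : Finset (Fin n → Bool)) : ℝ :=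
  ∑ F ∈ E.powerset, (-1) ^ F.card * y (D ∪ F ∪ S)

/-- Pseudo-codes of level `k`, length `n` and minimum distance `d`. In the last condition `s` and
`t` run over `none`, which stands for `∅`, and the words `x`, which stand for `{x}`. -/
structure IsPseudoCode (k n d : ℕ) (y : Finset (Fin n → Bool) → ℝ) : Prop where
  one : y ∅ = 1
  dist : ∀ S : Finset (Fin n → Bool), ∀ u ∈ S, ∀ v ∈ S, u ≠ v → hammingDist u v < d → y S = 0
  nonneg : ∀ D E : Finset (Fin n → Bool), D.card + E.card ≤ k → 0 ≤ pseudoProb y D E ∅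
  psd : ∀ D E : Finset (Fin n → Bool), D.card + E.card + 2 ≤ k →
    ∀ a : Option (Fin n → Bool) → ℝ,
      0 ≤ ∑ s, ∑ t, a s * a t * pseudoProb y D E (s.toFinset ∪ t.toFinset)

/-- The `k`-point bound with weights: the largest value of `∑_x w(x) y({x})`. -/
noncomputable def KPw (k n d : ℕ) (w : (Fin n → Bool) → ℝ) : ℝ :=
  sSup {v : ℝ | ∃ y, IsPseudoCode k n d y ∧ v = ∑ x, w x * y {x}}

/-- The `k`-point bound: the largest value of `∑_x y({x})`. -/
noncomputable def KP (k n d : ℕ) : ℝ := sSup {v : ℝ | ∃ y, IsPseudoCode k n d y ∧ v = ∑ x, y {x}}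

/-- `η(x) = -x log₂ x`, with `η(0) = 0`. -/
noncomputable def η (x : ℝ) : ℝ := -x * Real.logb 2 x

/-- The binary entropy function. -/
noncomputable def H (x : ℝ) : ℝ := η x + η (1 - x)

open Pool.Agent.TH41.BL Pool.Agent.Y570.KP Pool.Agent.TH753.FF Pool.Agent.TH41.BL.CV7f

/-! ### the bounds -/

lemma feas_iff (n d : ℕ) (l : ℕ → ℝ) : IsFeasible n d l ↔ Feas n d l :=
  ⟨fun h => ⟨h.nonneg, h.pos, h.nonpos⟩, fun h => ⟨h.1, h.2.1, h.2.2⟩⟩

lemma comb_zero (n : ℕ) (l : ℕ → ℝ) : combination n l 0 = Vl n l := (FINf.Vl_eq n l).symm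

lemma LP_eq (n d : ℕ) : LP n d = FINf.LPv n d := by
  unfold LP FINf.LPv
  congr 1
  ext v
  simp only [Set.mem_ofPred_eq, feas_iff, comb_zero]

lemma A_bdd (n d : ℕ) : BddAbove {m | ∃ C : Finset (Fin n → Bool),
    (∀ x ∈ C, ∀ y ∈ C, x ≠ y → d ≤ hammingDist x y) ∧ C.card = m} := by
  refine ⟨Fintype.card (Fin n → Bool), ?_⟩
  rintro k ⟨C, -, rfl⟩
  exact Finset.card_le_univ C

lemma A_mem (n d : ℕ) : ∃ C : Finset (Fin n → Bool),
    (∀ x ∈ C, ∀ y ∈ C, x ≠ y → d ≤ hammingDist x y) ∧ C.card = A n d := by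
  have : A n d ∈ {k | ∃ C : Finset (Fin n → Bool),
      (∀ x ∈ C, ∀ y ∈ C, x ≠ y → d ≤ hammingDist x y) ∧ C.card = k} :=
    Nat.sSup_mem ⟨0, ∅, by simp, by simp⟩ (A_bdd n d)
  exact this

lemma le_A {n d : ℕ} {C : Finset (Fin n → Bool)}
    (hC : ∀ x ∈ C, ∀ y ∈ C, x ≠ y → d ≤ hammingDist x y) : C.card ≤ A n d :=
  le_csSup (A_bdd n d) ⟨C, hC, rfl⟩

lemma one_le_A (n d : ℕ) : 1 ≤ A n d := by
  have h := le_A (n := n) (d := d) (C := {fun _ => false}) (by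
    intro x hx y hy hxy
    rw [Finset.mem_singleton] at hx hy
    exact absurd (hx.trans hy.symm) hxy)
  simpa using h

lemma pc_iff (k n d : ℕ) (y : Finset (Fin n → Bool) → ℝ) : IsPseudoCode k n d y ↔ PC n d k y :=
  ⟨fun h => ⟨h.one, h.dist, h.nonneg, h.psd⟩, fun h => ⟨h.one, h.dist, h.nonneg, h.psd⟩⟩

lemma KPw_eq (k n d : ℕ) (w : (Fin n → Bool) → ℝ) : KPw k n d w = SW n d k w := by
  unfold KPw SW
  simp only [pc_iff]

lemma KP_eq (k n d : ℕ) : KP k n d = SW n d k (fun _ => 1) := by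
  unfold KP SW
  simp only [pc_iff, one_mul]

lemma bdd_one {k n d : ℕ} (hk : 1 ≤ k) :
    BddAbove {v : ℝ | ∃ y, PC n d k y ∧ v = ∑ x, (fun _ => (1 : ℝ)) x * y {x}} :=
  bdd_SW hk (fun _ => zero_le_one)

lemma KP_le_LP {k n d : ℕ} (hk : 2 ≤ k) (hd : 1 ≤ d) : KP k n d ≤ LP n d := by
  rw [KP_eq, LP_eq]
  refine le_csInf ⟨_, _, DELf.feas_one hd, rfl⟩ ?_
  rintro v ⟨l, hl, rfl⟩
  refine csSup_le ⟨_, _, pc_code (k := k) (d := d) (∅ : Finset (Fin n → Bool)) (by simp), rfl⟩ ?_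
  rintro v ⟨y, hy, rfl⟩
  simp only [one_mul]
  exact hy.le_lp k7_chr hk hl

lemma A_le_KP {k n d : ℕ} (hk : 1 ≤ k) : (A n d : ℝ) ≤ KP k n d := by
  obtain ⟨C, hC, hcard⟩ := A_mem n d
  rw [KP_eq, ← hcard]
  have h := code_le (k := k) hk C hC (w := fun _ => (1 : ℝ)) (fun _ => zero_le_one)
  simpa using h

lemma KP_anti {k n d : ℕ} (hk : 1 ≤ k) : KP (k + 1) n d ≤ KP k n d := by
  rw [KP_eq, KP_eq]
  refine csSup_le_csSup (bdd_one hk)
    ⟨_, _, pc_code (k := k + 1) (d := d) (∅ : Finset (Fin n → Bool)) (by simp), rfl⟩ ?_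
  rintro v ⟨y, hy, rfl⟩
  exact ⟨y, hy.mono (Nat.le_succ k), rfl⟩

lemma KP_full {k n d : ℕ} (hk : 2 ^ n ≤ k) : KP k n d = A n d := by
  have hk1 : 1 ≤ k := le_trans (Nat.one_le_two_pow) hk
  refine le_antisymm ?_ (A_le_KP hk1)
  rw [KP_eq]
  refine csSup_le ⟨_, _, pc_code (k := k) (d := d) (∅ : Finset (Fin n → Bool)) (by simp), rfl⟩ ?_
  rintro v ⟨y, hy, rfl⟩
  simp only [one_mul]
  exact full_level hk hy (A n d) fun C hC => le_A hC

lemma ceil_le {δ : ℝ} (h0 : 0 < δ) (n : ℕ) : ((⌈δ * n⌉₊ : ℕ) : ℝ) ≤ δ * n + 1 :=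
  (Nat.ceil_lt_add_one (by positivity)).le

/-- `θ` is the exponent at the relative distance `δ`, in the form of the starting files -/
structure Pt (δ θ : ℝ) : Prop where
  pos : 0 < δ
  be : LIMf.Be δ (θ * Real.log 2)
  ub : UB δ θ
  ke : Ke δ (θ * Real.log 2)

lemma pt_one {e : ℝ} (he : 0 < e) : Pt ((1 - al 1 e) / 2) (Ss e) := by
  obtain ⟨c1, c2, c3⟩ := k7_cv
  have h4 := al_lt_one he (k := 1) (by norm_num)
  have h5 : 0 < (1 - al 1 e) / 2 := by linarith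
  rw [al_one] at h5 ⊢
  exact ⟨h5, be_two he, c2 e he, ke_two k7_chr he h5.le⟩

lemma pt_zero {e : ℝ} (he : 0 < e) : Pt ((1 - al 0 e) / 2) (1 - Ss e) := by
  obtain ⟨c1, c2, c3⟩ := k7_cv
  have h4 := al_lt_one he (k := 0) le_rfl
  have h5 : 0 < (1 - al 0 e) / 2 := by linarith
  rw [al_zero] at h5 ⊢
  exact ⟨h5, be_one he, c1 e he, ke_one k7_chr he⟩

lemma pt_mid : Pt (1 / 2 - 1 / Real.pi) (1 / 2) := by
  obtain ⟨c1, c2, c3⟩ := k7_cv
  refine ⟨?_, be_mid, c3, ke_mid k7_chr⟩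
  have : 1 / Real.pi < 1 / 2 :=
    one_div_lt_one_div_of_lt (by norm_num) (by linarith [Real.pi_gt_three])
  linarith

lemma cover {δ : ℝ} (h0 : 0 < δ) (h1 : δ < 1 / 2) :
    (∃ e : ℝ, 0 < e ∧ (1 - al 1 e) / 2 = δ) ∨ (∃ e : ℝ, 0 < e ∧ (1 - al 0 e) / 2 = δ) ∨
      δ = 1 / 2 - 1 / Real.pi := by
  have hpi := Real.pi_pos
  rcases lt_trichotomy δ (1 / 2 - 1 / Real.pi) with h | h | h
  · obtain ⟨e, he, hv⟩ := exists_zero (y := 1 - 2 * δ)
      (by rw [show 2 / Real.pi = 2 * (1 / Real.pi) by ring]; linarith) (by linarith)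
    refine Or.inr (Or.inl ⟨e, he, ?_⟩)
    rw [hv]
    ring
  · exact Or.inr (Or.inr h)
  · obtain ⟨e, he, hv⟩ := exists_one (y := 1 - 2 * δ) (by linarith)
      (by rw [show 2 / Real.pi = 2 * (1 / Real.pi) by ring]; linarith)
    refine Or.inl ⟨e, he, ?_⟩
    rw [hv]
    ring

lemma exists_pt {δ : ℝ} (h0 : 0 < δ) (h1 : δ < 1 / 2) : ∃ θ, Pt δ θ := by
  rcases cover h0 h1 with ⟨e, he, rfl⟩ | ⟨e, he, rfl⟩ | rfl
  · exact ⟨_, pt_one he⟩
  · exact ⟨_, pt_zero he⟩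
  · exact ⟨_, pt_mid⟩

lemma Pt.lp {δ θ : ℝ} (h : Pt δ θ) :
    Tendsto (fun n : ℕ => Real.logb 2 (LP n ⌈δ * n⌉₊) / n) atTop (𝓝 θ) := by
  simp_rw [LP_eq]
  exact FINf.limit h.pos h.be h.ub

/-- the uniform lower bound -/
lemma Pt.weights {δ θ : ℝ} (h : Pt δ θ) {k : ℕ} (hk : 1 ≤ k) {ε : ℝ} (hε : 0 < ε) :
    ∃ n₀ : ℕ, ∀ n ≥ n₀, ∀ w : (Fin n → Bool) → ℝ, (∀ x, 0 ≤ w x) →
      (2 : ℝ) ^ ((θ - ε) * n) * ∑ x, w x ≤ 2 ^ n * KPw k n ⌈δ * n⌉₊ w := by
  have hδ := h.pos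
  have hlog : 0 < Real.log 2 := Real.log_pos (by norm_num)
  obtain ⟨n₀, hn₀⟩ := lower hk h.ke (ε * Real.log 2) (by positivity)
  refine ⟨max n₀ 1, fun n hn w hw => ?_⟩
  have hn1 : 1 ≤ n := le_trans (le_max_right _ _) hn
  have hnp : (0 : ℝ) < n := by exact_mod_cast hn1
  have hd1 : 1 ≤ ⌈δ * n⌉₊ := Nat.one_le_iff_ne_zero.2 (by
    intro h0
    rw [Nat.ceil_eq_zero] at h0
    have : 0 < δ * n := by positivity
    linarith)
  have h1 := hn₀ n (le_trans (le_max_left _ _) hn) ⌈δ * n⌉₊ hd1 (ceil_le hδ n) w hw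
  rw [KPw_eq]
  refine le_trans (le_of_eq ?_) h1
  congr 1
  rw [Real.rpow_def_of_pos (by norm_num)]
  congr 1
  ring

lemma Pt.kp {δ θ : ℝ} (h : Pt δ θ) {k : ℕ} (hk : 2 ≤ k) :
    Tendsto (fun n : ℕ => Real.logb 2 (KP k n ⌈δ * n⌉₊) / n) atTop (𝓝 θ) := by
  have h0 := h.pos
  have hLP := h.lp
  refine tendsto_order.2 ⟨fun a ha => ?_, fun a ha => ?_⟩
  · obtain ⟨ε, hε⟩ : ∃ ε : ℝ, ε = (θ - a) / 2 := ⟨_, rfl⟩
    have hε0 : 0 < ε := by rw [hε]; linarith
    obtain ⟨n₀, hn₀⟩ := h.weights (k := k) (by omega) hε0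
    filter_upwards [eventually_ge_atTop (max n₀ 1)] with n hn
    have hn1 : 1 ≤ n := le_trans (le_max_right _ _) hn
    have hnp : (0 : ℝ) < n := by exact_mod_cast hn1
    have h3 := hn₀ n (le_trans (le_max_left _ _) hn) (fun _ => 1) (fun _ => zero_le_one)
    rw [KPw_eq, ← KP_eq] at h3
    have h4 : ∑ _x : Fin n → Bool, (1 : ℝ) = 2 ^ n := by
      rw [Finset.sum_const, Finset.card_univ, Fintype.card_fun, Fintype.card_bool,
        Fintype.card_fin]
      simp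
    rw [h4, mul_comm] at h3
    have h5 : (2 : ℝ) ^ ((θ - ε) * n) ≤ KP k n ⌈δ * n⌉₊ := le_of_mul_le_mul_left h3 (by positivity)
    have h6 : (0 : ℝ) < KP k n ⌈δ * n⌉₊ := lt_of_lt_of_le (by positivity) h5
    have h7 : (θ - ε) * n ≤ Real.logb 2 (KP k n ⌈δ * n⌉₊) := by
      rw [Real.le_logb_iff_rpow_le (by norm_num) h6]
      exact h5
    rw [lt_div_iff₀ hnp]
    nlinarith
  · have h3 := (tendsto_order.1 hLP).2 a ha
    filter_upwards [h3, eventually_ge_atTop 1] with n hn hn1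
    refine lt_of_le_of_lt ?_ hn
    have hnp : (0 : ℝ) < n := by exact_mod_cast hn1
    have hd1 : 1 ≤ ⌈δ * n⌉₊ := Nat.one_le_iff_ne_zero.2 (by
      intro h0'
      rw [Nat.ceil_eq_zero] at h0'
      have : 0 < δ * n := by positivity
      linarith)
    refine div_le_div_of_nonneg_right ?_ hnp.le
    have h4 : (0 : ℝ) < KP k n ⌈δ * n⌉₊ := by
      have h5 := A_le_KP (k := k) (n := n) (d := ⌈δ * n⌉₊) (by omega)
      have h6 : (1 : ℝ) ≤ A n ⌈δ * n⌉₊ := by exact_mod_cast one_le_A n _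
      linarith
    exact Real.logb_le_logb_of_le (by norm_num) h4 (KP_le_LP hk hd1)

lemma LP_anti {n d d' : ℕ} (hd : 1 ≤ d) (h : d ≤ d') : LP n d' ≤ LP n d := by
  have hb : BddBelow {v : ℝ | ∃ l : ℕ → ℝ, IsFeasible n d' l ∧ v = combination n l 0 / l 0} := by
    have := FINf.bdd n d'
    simpa only [feas_iff, comb_zero] using this
  have hne : {v : ℝ | ∃ l : ℕ → ℝ, IsFeasible n d l ∧ v = combination n l 0 / l 0}.Nonempty :=
    ⟨_, _, (feas_iff n d _).2 (DELf.feas_one hd), rfl⟩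
  refine csInf_le_csInf hb hne ?_
  rintro v ⟨l, hl, rfl⟩
  exact ⟨l, ⟨hl.nonneg, hl.pos, fun w hw => hl.nonpos w (h.trans hw)⟩, rfl⟩

lemma LP_pos {n d : ℕ} (hd : 1 ≤ d) : 0 < LP n d := by
  have h1 : (1 : ℝ) ≤ A n d := by exact_mod_cast one_le_A n d
  have h2 := A_le_KP (k := 2) (n := n) (d := d) (by norm_num)
  have h3 := KP_le_LP (k := 2) (n := n) (d := d) le_rfl hd
  linarith

lemma Pt.anti {δ δ' θ θ' : ℝ} (h : Pt δ θ) (h' : Pt δ' θ') (hd : δ ≤ δ') : θ' ≤ θ := by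
  refine le_of_tendsto_of_tendsto h'.lp h.lp ?_
  filter_upwards [eventually_ge_atTop 1] with n hn
  have hnp : (0 : ℝ) < n := by exact_mod_cast hn
  have h1 : ⌈δ * n⌉₊ ≤ ⌈δ' * n⌉₊ := Nat.ceil_le_ceil (mul_le_mul_of_nonneg_right hd hnp.le)
  have h2 : 1 ≤ ⌈δ * n⌉₊ := Nat.one_le_iff_ne_zero.2 (by
    intro h0'
    rw [Nat.ceil_eq_zero] at h0'
    have := mul_pos h.pos hnp
    linarith)
  exact div_le_div_of_nonneg_right
    (Real.logb_le_logb_of_le (by norm_num) (LP_pos (h2.trans h1)) (LP_anti h2 h1)) hnp.le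

lemma Pt.unique {δ θ θ' : ℝ} (h : Pt δ θ) (h' : Pt δ θ') : θ = θ' :=
  tendsto_nhds_unique h.lp h'.lp

/-! ### entropy -/

lemma H_eq (x : ℝ) : H x = Real.binEntropy x / Real.log 2 := by
  unfold H η Real.binEntropy Real.logb
  rw [Real.log_inv, Real.log_inv]
  ring

lemma log2_pos : 0 < Real.log 2 := Real.log_pos (by norm_num)

lemma H_zero : H 0 = 0 := by rw [H_eq, Real.binEntropy_zero, zero_div]

lemma H_symm (x : ℝ) : H (1 - x) = H x := by rw [H_eq, H_eq, Real.binEntropy_one_sub]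

lemma H_mono {x y : ℝ} (h0 : 0 ≤ x) (hxy : x ≤ y) (h1 : y ≤ 1 / 2) : H x ≤ H y := by
  rw [H_eq, H_eq]
  refine div_le_div_of_nonneg_right ?_ log2_pos.le
  exact Real.binEntropy_strictMonoOn.monotoneOn ⟨h0, by norm_num at h1 ⊢; linarith⟩
    ⟨by linarith, by norm_num at h1 ⊢; linarith⟩ hxy

lemma H_smul {x c : ℝ} (hx0 : 0 ≤ x) (hx1 : x ≤ 1) (h0 : 0 ≤ c) (h1 : c ≤ 1) :
    c * H x ≤ H (c * x) := by
  have h := Real.strictConcave_binEntropy.concaveOn.2 (x := x) (y := 0) ⟨hx0, hx1⟩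
    ⟨le_rfl, zero_le_one⟩ h0 (by linarith : (0 : ℝ) ≤ 1 - c) (by ring)
  simp only [smul_eq_mul, Real.binEntropy_zero, mul_zero, add_zero] at h
  rw [H_eq, H_eq, ← mul_div_assoc]
  exact div_le_div_of_nonneg_right h log2_pos.le

lemma H_smul' {x c : ℝ} (hx0 : 0 ≤ x) (hc : 1 ≤ c) (h1 : c * x ≤ 1) : H (c * x) ≤ c * H x := by
  have hc0 : 0 < c := by linarith
  have h := H_smul (x := c * x) (c := 1 / c) (by positivity) h1 (by positivity)
    (by rw [div_le_one hc0]; exact hc)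
  rw [show 1 / c * (c * x) = x by field_simp, div_mul_eq_mul_div, one_mul,
    div_le_iff₀ hc0] at h
  linarith

lemma H_pos {x : ℝ} (h0 : 0 < x) (h1 : x < 1) : 0 < H x := by
  rw [H_eq]
  exact div_pos (Real.binEntropy_pos h0 h1) log2_pos

/-- `H(x ^ 2) ≤ 3 x H(x)` for small `x` -/
lemma H_sq {x : ℝ} (h0 : 0 < x) (h1 : x ≤ 1 / 4) : H (x ^ 2) ≤ 3 * x * H x := by
  rw [H_eq, H_eq, ← mul_div_assoc]
  refine div_le_div_of_nonneg_right ?_ log2_pos.le
  have hx2 : 0 < x ^ 2 := by positivity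
  have hx21 : x ^ 2 < 1 := by nlinarith
  have e1 : Real.binEntropy (x ^ 2) ≤ x ^ 2 * (2 * Real.log x⁻¹) + x ^ 2 := by
    rw [Real.binEntropy]
    have a1 : Real.log (x ^ 2)⁻¹ = 2 * Real.log x⁻¹ := by
      rw [Real.log_inv, Real.log_inv, Real.log_pow]
      push_cast
      ring
    have a2 : (1 - x ^ 2) * Real.log (1 - x ^ 2)⁻¹ ≤ x ^ 2 := by
      have b1 : 0 < 1 - x ^ 2 := by linarith
      have b2 := Real.log_le_sub_one_of_pos (inv_pos.2 b1)
      have b3 := mul_le_mul_of_nonneg_left b2 b1.le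
      have b4 : (1 - x ^ 2) * ((1 - x ^ 2)⁻¹ - 1) = x ^ 2 := by
        field_simp
        ring
      linarith
    rw [a1]
    linarith
  have e2 : x * Real.log x⁻¹ ≤ Real.binEntropy x := by
    rw [Real.binEntropy]
    have : 0 ≤ (1 - x) * Real.log (1 - x)⁻¹ := by
      apply mul_nonneg (by linarith)
      apply Real.log_nonneg
      rw [one_le_inv₀ (by linarith)]
      linarith
    linarith
  have e3 : 1 ≤ Real.log x⁻¹ := by
    have b1 : (4 : ℝ) ≤ x⁻¹ := by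
      rw [le_inv_comm₀ (by norm_num) h0]
      norm_num at h1 ⊢
      linarith
    have b2 := Real.log_le_log (by norm_num) b1
    have b3 : (1 : ℝ) ≤ Real.log 4 := by
      rw [Real.le_log_iff_exp_le (by norm_num)]
      have := Real.exp_one_lt_d9
      linarith
    linarith
  have e4 : 3 * x * (x * Real.log x⁻¹) ≤ 3 * x * Real.binEntropy x :=
    mul_le_mul_of_nonneg_left e2 (by positivity)
  nlinarith

/-! ### the sums of hyperbolic secants -/

lemma se_H (x : ℝ) : se x = H (sg x) := by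
  rw [H_eq, se, Real.binEntropy_eq_negMulLog_add_negMulLog_one_sub]

lemma sg_exp (x : ℝ) : 1 - sg x = 1 / (1 + Real.exp (2 * x)) := by
  rw [one_sub_sg_eq, sg_eq, Real.cosh_add_sinh, Real.cosh_eq, neg_neg]
  have h1 := Real.exp_pos x
  have h2 := Real.exp_pos (-x)
  have h3 : Real.exp (2 * x) = Real.exp x / Real.exp (-x) := by
    rw [← Real.exp_sub]
    congr 1
    ring
  rw [h3]
  field_simp

lemma se_exp (x : ℝ) : se x = H (1 / (1 + Real.exp (2 * x))) := by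
  rw [se_H, ← H_symm, sg_exp]

lemma se_anti {x y : ℝ} (h0 : 0 ≤ x) (h : x ≤ y) : se y ≤ se x := by
  rw [se_exp, se_exp]
  have h1 : Real.exp (2 * x) ≤ Real.exp (2 * y) := Real.exp_le_exp.2 (by linarith)
  have h2 : 1 ≤ Real.exp (2 * x) := Real.one_le_exp (by linarith)
  refine H_mono (by positivity) ?_ ?_
  · exact one_div_le_one_div_of_le (by linarith) (by linarith)
  · exact one_div_le_one_div_of_le (by norm_num) (by linarith)

lemma So_eq {e : ℝ} (he : 0 < e) : So e = se e + ∑' n : ℕ, se (3 * e + 2 * (n : ℝ) * e) := by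
  unfold So
  rw [(summable_nat he e).tsum_eq_zero_add]
  congr 1
  · congr 1
    push_cast
    ring
  · refine tsum_congr fun n => ?_
    congr 1
    push_cast
    ring

lemma Se_eq {e : ℝ} (he : 0 < e) :
    Se e = se (2 * e) + ∑' n : ℕ, se (4 * e + 2 * (n : ℝ) * e) := by
  unfold Se
  rw [(summable_nat he (2 * e)).tsum_eq_zero_add]
  congr 1
  · congr 1
    push_cast
    ring
  · refine tsum_congr fun n => ?_
    congr 1
    push_cast
    ring

lemma S_le {e : ℝ} (he : 0 < e) : Ss e ≤ se e := by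
  rw [CV7f.S_eq he, So_eq he]
  have h : ∑' n : ℕ, se (3 * e + 2 * (n : ℝ) * e) ≤ Se e := by
    refine (summable_nat he (3 * e)).tsum_le_tsum (fun n => ?_) (summable_nat he (2 * e))
    have hn : (0 : ℝ) ≤ n := Nat.cast_nonneg n
    exact se_anti (by positivity) (by linarith)
  linarith

lemma le_S {e : ℝ} (he : 0 < e) : se e - se (2 * e) ≤ Ss e := by
  rw [CV7f.S_eq he, So_eq he, Se_eq he]
  have h : ∑' n : ℕ, se (4 * e + 2 * (n : ℝ) * e) ≤ ∑' n : ℕ, se (3 * e + 2 * (n : ℝ) * e) := by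
    refine (summable_nat he (4 * e)).tsum_le_tsum (fun n => ?_) (summable_nat he (3 * e))
    have hn : (0 : ℝ) ≤ n := Nat.cast_nonneg n
    exact se_anti (by positivity) (by linarith)
  linarith

lemma cosh_mono {x y : ℝ} (h0 : 0 ≤ x) (h : x ≤ |y|) : Real.cosh x ≤ Real.cosh y := by
  rw [Real.cosh_le_cosh, abs_of_nonneg h0]
  exact h

lemma al_one_le {e : ℝ} (he : 0 < e) : al 1 e ≤ 1 / Real.cosh e := by
  unfold al
  rw [div_le_iff₀ (Zl_pos he 1)]
  unfold Wl Zl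
  rw [← tsum_mul_left]
  refine (summable_l2 he 1).tsum_le_tsum (fun j => ?_) ((summable_l1 he 1).mul_left _)
  have h1 : Real.cosh e ≤ Real.cosh (xl e 1 j) := by
    refine cosh_mono he.le ?_
    unfold xl
    rw [show ((1 : ℤ) : ℝ) * e + 2 * (j : ℝ) * e = ((1 + 2 * j : ℤ) : ℝ) * e by push_cast; ring,
      abs_mul, abs_of_pos he, ← Int.cast_abs]
    have h2 : (1 : ℤ) ≤ |1 + 2 * j| := Int.one_le_abs (by omega)
    have h3 : (1 : ℝ) ≤ ((|1 + 2 * j| : ℤ) : ℝ) := by exact_mod_cast h2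
    nlinarith
  have h4 := Real.cosh_pos e
  have h5 := Real.cosh_pos (xl e 1 j)
  rw [one_div_mul_one_div]
  refine one_div_le_one_div_of_le (by positivity) ?_
  nlinarith

lemma le_one_sub_al_zero {e : ℝ} (he : 0 < e) {y : ℝ} (hy : y = 1 / Real.cosh (2 * e)) :
    y * (1 - y) / (1 + 2 * y) ≤ (1 - al 0 e) / 2 := by
  have hy0 : 0 < y := by rw [hy]; exact inv_cosh_pos _
  have hy1 : y ≤ 1 := by rw [hy]; exact inv_cosh_le_one _
  have hW : Wl e 0 ≤ y * Zl e 0 + (1 - y) := by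
    unfold Wl Zl
    have h1 : ∑' j : ℤ, (if j = 0 then (1 - y) else 0) = 1 - y := tsum_ite_eq 0 _
    have hs : Summable fun j : ℤ => (if j = 0 then (1 - y) else (0 : ℝ)) :=
      summable_of_ne_finset_zero (s := {0}) (fun j hj => by
        rw [Finset.mem_singleton] at hj
        rw [if_neg hj])
    rw [← tsum_mul_left, ← h1, ← ((summable_l1 he 0).mul_left y).tsum_add hs]
    refine (summable_l2 he 0).tsum_le_tsum (fun j => ?_) (((summable_l1 he 0).mul_left y).add hs)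
    by_cases hj : j = 0
    · subst hj
      rw [if_pos rfl]
      unfold xl
      simp
    · rw [if_neg hj, add_zero, hy]
      have h2 : Real.cosh (2 * e) ≤ Real.cosh (xl e 0 j) := by
        refine cosh_mono (by positivity) ?_
        unfold xl
        rw [show ((0 : ℤ) : ℝ) * e + 2 * (j : ℝ) * e = ((j : ℤ) : ℝ) * (2 * e) by push_cast; ring,
          abs_mul, abs_of_pos (by positivity : 0 < 2 * e), ← Int.cast_abs]
        have h2 : (1 : ℤ) ≤ |j| := Int.one_le_abs hj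
        have h3 : (1 : ℝ) ≤ ((|j| : ℤ) : ℝ) := by exact_mod_cast h2
        nlinarith
      have h4 := Real.cosh_pos (2 * e)
      have h5 := Real.cosh_pos (xl e 0 j)
      rw [one_div_mul_one_div]
      refine one_div_le_one_div_of_le (by positivity) ?_
      nlinarith
  have hZ : 1 + 2 * y ≤ Zl e 0 := by
    unfold Zl
    have h1 := (summable_l1 he 0).sum_le_tsum ({0, 1, -1} : Finset ℤ)
      (fun j _ => (inv_cosh_pos _).le)
    rw [Finset.sum_insert (by decide), Finset.sum_insert (by decide), Finset.sum_singleton] at h1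
    have e0 : 1 / Real.cosh (xl e 0 0) = 1 := by unfold xl; simp
    have e1 : 1 / Real.cosh (xl e 0 1) = y := by rw [hy]; unfold xl; simp
    have e2 : 1 / Real.cosh (xl e 0 (-1)) = y := by rw [hy]; unfold xl; simp
    rw [e0, e1, e2] at h1
    linarith
  have hZ0 := Zl_pos he 0
  have h3 : al 0 e ≤ y + (1 - y) / (1 + 2 * y) := by
    unfold al
    rw [div_le_iff₀ hZ0]
    have h4 : (1 - y) ≤ (1 - y) / (1 + 2 * y) * Zl e 0 := by
      rw [div_mul_eq_mul_div, le_div_iff₀ (by positivity)]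
      exact mul_le_mul_of_nonneg_left hZ (by linarith)
    linarith
  have h5 : y * (1 - y) / (1 + 2 * y) = (1 - (y + (1 - y) / (1 + 2 * y))) / 2 := by
    field_simp
    ring
  rw [h5]
  linarith

/-! ### the exponent -/

/-- the values of the parametrised curve are below the second bound of McEliece, Rodemich, Rumsey
and Welch, at all parameters -/
lemma Pt.lt {δ θ : ℝ} (h : Pt δ θ) (hδ : δ < 1 / 2) {u : ℝ} (h0 : 0 ≤ u) (h1 : u ≤ 1 - 2 * δ) :
    θ < 1 + hh (u ^ 2) - hh (u ^ 2 + 2 * δ * u + 2 * δ) := by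
  have hp := h.pos
  rcases cover hp hδ with ⟨e, he, hv⟩ | ⟨e, he, hv⟩ | hv
  · have h2 : Pt δ (Ss e) := hv ▸ pt_one he
    rw [h.unique h2, ← val_one he]
    exact lattice_lt he 1 hp (by rw [← hv]; unfold al; ring) h0 h1
  · have h2 : Pt δ (1 - Ss e) := hv ▸ pt_zero he
    rw [h.unique h2, ← val_zero he]
    exact lattice_lt he 0 hp (by rw [← hv]; unfold al; ring) h0 h1
  · have h2 : Pt δ (1 / 2) := hv ▸ pt_mid
    rw [h.unique h2]
    exact arcsine_lt hp (by rw [hv]; ring) h0 h1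

lemma hh_H (y : ℝ) : hh y = H (1 / 2 - 1 / 2 * √(1 - y)) := by
  rw [H_eq, hh, Real.binEntropy_eq_negMulLog_add_negMulLog_one_sub]

/-- below the bound of Elias and Bassalygo -/
lemma Pt.lt_elias {δ θ : ℝ} (h : Pt δ θ) (hδ : δ < 1 / 2) :
    θ < 1 - H (1 / 2 - 1 / 2 * √(1 - 2 * δ)) := by
  have h1 := h.lt hδ (u := 0) le_rfl (by linarith)
  have e1 : hh ((0 : ℝ) ^ 2) = 0 := by
    rw [hh_H]
    norm_num [H_zero]
  rw [e1, hh_H] at h1
  simpa using h1

/-- below the first bound of McEliece, Rodemich, Rumsey and Welch -/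
lemma Pt.lt_mrrw {ε θ : ℝ} (h : Pt (1 / 2 - ε) θ) (hε : 0 < ε) :
    θ < H (1 / 2 - √(1 / 4 - ε ^ 2)) := by
  have h1 := h.lt (by linarith) (u := 2 * ε) (by linarith) (by linarith)
  have e1 : hh ((2 * ε) ^ 2 + 2 * (1 / 2 - ε) * (2 * ε) + 2 * (1 / 2 - ε)) = 1 := by
    rw [hh_H, show (2 * ε) ^ 2 + 2 * (1 / 2 - ε) * (2 * ε) + 2 * (1 / 2 - ε) = 1 by ring, sub_self,
      Real.sqrt_zero, mul_zero, sub_zero, H_eq, one_div, Real.binEntropy_two_inv,
      div_self log2_pos.ne']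
  have e2 : hh ((2 * ε) ^ 2) = H (1 / 2 - √(1 / 4 - ε ^ 2)) := by
    rw [hh_H]
    congr 2
    rw [show 1 - (2 * ε) ^ 2 = 2 ^ 2 * (1 / 4 - ε ^ 2) by ring, Real.sqrt_mul (by norm_num),
      Real.sqrt_sq (by norm_num)]
    ring
  rw [e1, e2] at h1
  linarith

/-- the lower bound near `1 / 2` -/
lemma Pt.ge_half {ε θ : ℝ} (h : Pt (1 / 2 - ε) θ) (hε : 0 < ε) :
    H (ε ^ 2 / (1 + ε ^ 2)) - H (ε ^ 4 / (1 + ε ^ 4)) ≤ θ := by
  have hε1 : ε < 1 := by have := h.pos; linarith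
  obtain ⟨e, he⟩ : ∃ e : ℝ, e = -Real.log ε := ⟨_, rfl⟩
  have he0 : 0 < e := by
    rw [he]
    have := Real.log_neg hε hε1
    linarith
  have hexp : Real.exp e = 1 / ε := by
    rw [he, Real.exp_neg, Real.exp_log hε, one_div]
  have hexpn : Real.exp (-e) = ε := by
    rw [he, neg_neg, Real.exp_log hε]
  have h1 : al 1 e ≤ 2 * ε := by
    refine (al_one_le he0).trans ?_
    rw [Real.cosh_eq, hexp, hexpn, div_le_iff₀ (by positivity)]
    have : 2 * ε * ((1 / ε + ε) / 2) = 1 + ε ^ 2 := by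
      field_simp
    rw [this]
    nlinarith
  have h2 : Ss e ≤ θ := h.anti (pt_one he0) (by linarith)
  have h3 := le_S he0
  have e1 : Real.exp (2 * e) = 1 / ε ^ 2 := by
    rw [show 2 * e = e + e by ring, Real.exp_add, hexp]
    field_simp
  have e2 : Real.exp (2 * (2 * e)) = 1 / ε ^ 4 := by
    rw [show 2 * (2 * e) = 2 * e + 2 * e by ring, Real.exp_add, e1]
    field_simp
  rw [se_exp, se_exp, e1, e2] at h3
  have e3 : 1 / (1 + 1 / ε ^ 2) = ε ^ 2 / (1 + ε ^ 2) := by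
    field_simp
    ring
  have e4 : 1 / (1 + 1 / ε ^ 4) = ε ^ 4 / (1 + ε ^ 4) := by
    field_simp
    ring
  rw [e3, e4] at h3
  linarith

/-- the lower bound near `0` -/
lemma Pt.ge_zero {p q δ θ : ℝ} (hp0 : 0 < p) (hp1 : p < 1 / 2) (hq : q = 2 * p * (1 - p))
    (h : Pt δ θ) (hδ : δ ≤ q * (1 - 2 * q) / (1 - q ^ 2)) : 1 - H p ≤ θ := by
  obtain ⟨e, he⟩ : ∃ e : ℝ, e = Real.log ((1 - p) / p) / 2 := ⟨_, rfl⟩
  have h1p : 0 < 1 - p := by linarith
  have hr : 1 < (1 - p) / p := by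
    rw [one_lt_div hp0]
    linarith
  have he0 : 0 < e := by
    rw [he]
    have := Real.log_pos hr
    linarith
  have hexp : Real.exp (2 * e) = (1 - p) / p := by
    rw [he, mul_div_cancel₀ _ (by norm_num : (2 : ℝ) ≠ 0), Real.exp_log (by linarith)]
  have hexpn : Real.exp (-(2 * e)) = p / (1 - p) := by
    rw [Real.exp_neg, hexp, inv_div]
  have hq0 : 0 < q := by rw [hq]; positivity
  have hq1 : q < 1 / 2 := by
    rw [hq]
    nlinarith [sq_nonneg (1 / 2 - p), mul_pos (sub_pos.2 hp1) (sub_pos.2 hp1)]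
  have hy : q / (1 - q) = 1 / Real.cosh (2 * e) := by
    rw [Real.cosh_eq, hexp, hexpn, hq]
    have h2 : 1 - 2 * p * (1 - p) ≠ 0 := by
      have : 0 < 1 - q := by linarith
      rw [hq] at this
      exact this.ne'
    have h3 : (1 - p) / p + p / (1 - p) = (1 - 2 * p * (1 - p)) / (p * (1 - p)) := by
      field_simp
      ring
    rw [h3]
    field_simp
  have h2 := le_one_sub_al_zero he0 hy
  have h1q : 0 < 1 - q := by linarith
  have e1 : q / (1 - q) * (1 - q / (1 - q)) / (1 + 2 * (q / (1 - q))) =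
      q * (1 - 2 * q) / (1 - q ^ 2) := by
    have h3 : 1 - q ^ 2 = (1 - q) * (1 + q) := by ring
    have h4 : 1 + 2 * (q / (1 - q)) = (1 + q) / (1 - q) := by
      field_simp
      ring
    have h5 : 1 - q / (1 - q) = (1 - 2 * q) / (1 - q) := by
      field_simp
      ring
    rw [h3, h4, h5]
    have : 1 + q ≠ 0 := by positivity
    field_simp
  rw [e1] at h2
  have h3 : 1 - Ss e ≤ θ := h.anti (pt_zero he0) (hδ.trans h2)
  have h4 := S_le he0
  rw [se_exp, hexp] at h4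
  have e2 : 1 / (1 + (1 - p) / p) = p := by
    field_simp
    ring
  rw [e2] at h4
  linarith

/-- the exponent -/
noncomputable def κ (δ : ℝ) : ℝ :=
  open Classical in if h : 0 < δ ∧ δ < 1 / 2 then (exists_pt h.1 h.2).choose else 0

lemma κ_pt {δ : ℝ} (h0 : 0 < δ) (h1 : δ < 1 / 2) : Pt δ (κ δ) := by
  unfold κ
  rw [dif_pos ⟨h0, h1⟩]
  exact (exists_pt h0 h1).choose_spec

lemma elias_point {p q : ℝ} (hp1 : p < 1 / 2) (hq : q = 2 * p * (1 - p)) :
    1 / 2 - 1 / 2 * √(1 - 2 * q) = p := by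
  have h1 : 1 - 2 * q = (1 - 2 * p) ^ 2 := by rw [hq]; ring
  rw [h1, Real.sqrt_sq (by linarith)]
  ring

/-- **Small distances.** -/
lemma small {δ : ℝ} (h0 : 0 < δ) (h1 : δ ≤ 1 / 10) :
    H (δ / 2) < 1 - κ δ ∧ 1 - κ δ ≤ (1 + 6 * δ) * H (δ / 2) := by
  have hpt := κ_pt h0 (by linarith)
  constructor
  · have h2 := hpt.lt_elias (by linarith)
    have h3 : √(1 - 2 * δ) ≤ 1 - δ := by
      rw [Real.sqrt_le_left (by linarith)]
      nlinarith
    have h4 : H (δ / 2) ≤ H (1 / 2 - 1 / 2 * √(1 - 2 * δ)) :=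
      H_mono (by positivity) (by linarith) (by have := Real.sqrt_nonneg (1 - 2 * δ); linarith)
    linarith
  · obtain ⟨q, hq⟩ : ∃ q : ℝ, q = δ + 4 * δ ^ 2 := ⟨_, rfl⟩
    have hq0 : 0 < q := by rw [hq]; positivity
    have hq1 : q ≤ 14 / 100 := by rw [hq]; nlinarith
    obtain ⟨r, hr⟩ : ∃ r : ℝ, r = √(1 - 2 * q) := ⟨_, rfl⟩
    have hr2 : r ^ 2 = 1 - 2 * q := by rw [hr, Real.sq_sqrt (by linarith)]
    have hr0 : 0 < r := by rw [hr]; exact Real.sqrt_pos.2 (by linarith)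
    have hr1 : r < 1 := by nlinarith
    have hrq : 1 - q - q ^ 2 ≤ r := by
      rw [hr]
      apply Real.le_sqrt_of_sq_le
      nlinarith [mul_nonneg hq0.le hq0.le, mul_nonneg (mul_nonneg hq0.le hq0.le) hq0.le]
    obtain ⟨p, hp⟩ : ∃ p : ℝ, p = (1 - r) / 2 := ⟨_, rfl⟩
    have hp0 : 0 < p := by rw [hp]; linarith
    have hp1 : p < 1 / 2 := by rw [hp]; linarith
    have hqp : q = 2 * p * (1 - p) := by
      rw [hp]
      nlinarith
    have hδq : δ ≤ q * (1 - 2 * q) / (1 - q ^ 2) := by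
      have h2 : 0 < 1 - q ^ 2 := by nlinarith
      rw [le_div_iff₀ h2]
      have h3 : δ * (1 - q ^ 2) ≤ δ := by nlinarith [mul_pos h0 (mul_pos hq0 hq0)]
      have h4 : δ ≤ q * (1 - 2 * q) := by
        rw [hq]
        have h5 : 0 ≤ δ ^ 2 * (2 - 16 * δ - 32 * δ ^ 2) := by
          apply mul_nonneg (by positivity)
          nlinarith
        nlinarith
      linarith
    have h2 := hpt.ge_zero hp0 hp1 hqp hδq
    have h3 : p ≤ (1 + 6 * δ) * (δ / 2) := by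
      have h4 : p ≤ (q + q ^ 2) / 2 := by rw [hp]; linarith
      have h5 : q + q ^ 2 ≤ (1 + 6 * δ) * δ := by
        rw [hq]
        have h6 : 0 ≤ δ ^ 2 * (1 - 8 * δ - 16 * δ ^ 2) := by
          apply mul_nonneg (by positivity)
          nlinarith
        nlinarith
      linarith
    have h4 : H p ≤ H ((1 + 6 * δ) * (δ / 2)) := H_mono hp0.le h3 (by nlinarith)
    have h5 : H ((1 + 6 * δ) * (δ / 2)) ≤ (1 + 6 * δ) * H (δ / 2) :=
      H_smul' (by positivity) (by linarith) (by nlinarith)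
    linarith

/-- **Large distances.** -/
lemma large {ε : ℝ} (h0 : 0 < ε) (h1 : ε < 1 / 2) :
    (1 - 4 * ε ^ 2) * H (ε ^ 2) ≤ κ (1 / 2 - ε) ∧
      κ (1 / 2 - ε) ≤ H (ε ^ 2) / (1 - 2 * ε ^ 2) := by
  have hpt := κ_pt (δ := 1 / 2 - ε) (by linarith) (by linarith)
  obtain ⟨x, hx⟩ : ∃ x : ℝ, x = ε ^ 2 := ⟨_, rfl⟩
  have hx0 : 0 < x := by rw [hx]; positivity
  have hx1 : x < 1 / 4 := by rw [hx]; nlinarith
  have hH0 : 0 < H x := H_pos hx0 (by linarith)
  constructor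
  · have h2 := hpt.ge_half h0
    rw [show ε ^ 4 = (ε ^ 2) ^ 2 by ring, ← hx] at h2
    rw [← hx]
    have h3 : (1 - x) * H x ≤ H (x / (1 + x)) := by
      have h4 := H_smul (x := x) (c := 1 / (1 + x)) hx0.le (by linarith) (by positivity)
        (by rw [div_le_one (by linarith)]; linarith)
      rw [show 1 / (1 + x) * x = x / (1 + x) by ring] at h4
      refine le_trans ?_ h4
      refine mul_le_mul_of_nonneg_right ?_ hH0.le
      rw [le_div_iff₀ (by linarith)]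
      nlinarith
    have h4 : H (x ^ 2 / (1 + x ^ 2)) ≤ 3 * x * H x := by
      refine le_trans (H_mono (by positivity) ?_ ?_) (H_sq hx0 hx1.le)
      · exact div_le_self (by positivity) (by nlinarith)
      · nlinarith
    nlinarith
  · have h2 := hpt.lt_mrrw h0
    rw [← hx] at h2 ⊢
    have h3 : 1 / 2 - 2 * x ≤ √(1 / 4 - x) := by
      apply Real.le_sqrt_of_sq_le
      nlinarith
    have h4 : √(1 / 4 - x) ^ 2 = 1 / 4 - x := Real.sq_sqrt (by linarith)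
    have h5 : 0 ≤ √(1 / 4 - x) := Real.sqrt_nonneg _
    have h6 : 0 < 1 - 2 * x := by linarith
    have h7 : 1 / 2 - √(1 / 4 - x) ≤ 1 / (1 - 2 * x) * x := by
      rw [div_mul_eq_mul_div, one_mul, le_div_iff₀ h6]
      nlinarith
    have h8 : 1 / (1 - 2 * x) * x ≤ 1 / 2 := by
      rw [div_mul_eq_mul_div, one_mul, div_le_iff₀ h6]
      linarith
    have h9 : 0 ≤ 1 / 2 - √(1 / 4 - x) := by
      have : √(1 / 4 - x) ≤ 1 / 2 := by
        rw [Real.sqrt_le_left (by norm_num)]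
        linarith
      linarith
    have h10 := H_mono h9 h7 h8
    have h11 : H (1 / (1 - 2 * x) * x) ≤ 1 / (1 - 2 * x) * H x :=
      H_smul' hx0.le (by rw [le_div_iff₀ h6]; linarith) (by linarith)
    have h12 : 1 / (1 - 2 * x) * H x = H x / (1 - 2 * x) := by ring
    linarith

lemma tendsto_small : Tendsto (fun δ => (1 - κ δ) / H (δ / 2)) (𝓝[>] 0) (𝓝 1) := by
  have h1 : Tendsto (fun δ : ℝ => 1 + 6 * δ) (𝓝[>] 0) (𝓝 1) := by
    have : Tendsto (fun δ : ℝ => 1 + 6 * δ) (𝓝 0) (𝓝 (1 + 6 * 0)) := by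
      apply Continuous.tendsto
      fun_prop
    rw [mul_zero, add_zero] at this
    exact this.mono_left nhdsWithin_le_nhds
  have h2 : ∀ᶠ δ : ℝ in 𝓝[>] 0, 0 < δ ∧ δ ≤ 1 / 10 := by
    filter_upwards [Ioc_mem_nhdsGT (show (0 : ℝ) < 1 / 10 by norm_num)] with δ hδ
    exact ⟨hδ.1, hδ.2⟩
  refine tendsto_of_tendsto_of_tendsto_of_le_of_le' tendsto_const_nhds h1 ?_ ?_
  · filter_upwards [h2] with δ hδ
    have h3 : 0 < H (δ / 2) := H_pos (by linarith) (by linarith)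
    rw [le_div_iff₀ h3]
    linarith [(small hδ.1 hδ.2).1]
  · filter_upwards [h2] with δ hδ
    have h3 : 0 < H (δ / 2) := H_pos (by linarith) (by linarith)
    rw [div_le_iff₀ h3]
    exact (small hδ.1 hδ.2).2

lemma tendsto_large : Tendsto (fun ε => κ (1 / 2 - ε) / H (ε ^ 2)) (𝓝[>] 0) (𝓝 1) := by
  have h1 : Tendsto (fun ε : ℝ => 1 - 4 * ε ^ 2) (𝓝[>] 0) (𝓝 1) := by
    have : Tendsto (fun ε : ℝ => 1 - 4 * ε ^ 2) (𝓝 0) (𝓝 (1 - 4 * 0 ^ 2)) := by
      apply Continuous.tendsto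
      fun_prop
    norm_num at this
    exact this.mono_left nhdsWithin_le_nhds
  have h1' : Tendsto (fun ε : ℝ => 1 / (1 - 2 * ε ^ 2)) (𝓝[>] 0) (𝓝 1) := by
    have : Tendsto (fun ε : ℝ => 1 / (1 - 2 * ε ^ 2)) (𝓝 0) (𝓝 (1 / (1 - 2 * 0 ^ 2))) := by
      apply ContinuousAt.tendsto
      fun_prop (disch := norm_num)
    norm_num at this
    simpa using this.mono_left nhdsWithin_le_nhds
  have h2 : ∀ᶠ ε : ℝ in 𝓝[>] 0, 0 < ε ∧ ε < 1 / 2 := by
    filter_upwards [Ioo_mem_nhdsGT (show (0 : ℝ) < 1 / 2 by norm_num)] with ε hε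
    exact ⟨hε.1, hε.2⟩
  refine tendsto_of_tendsto_of_tendsto_of_le_of_le' h1 h1' ?_ ?_
  · filter_upwards [h2] with ε hε
    have h3 : 0 < H (ε ^ 2) := H_pos (by have := hε.1; positivity) (by nlinarith [hε.1, hε.2])
    rw [le_div_iff₀ h3]
    exact (large hε.1 hε.2).1
  · filter_upwards [h2] with ε hε
    have h3 : 0 < H (ε ^ 2) := H_pos (by have := hε.1; positivity) (by nlinarith [hε.1, hε.2])
    rw [div_le_iff₀ h3, div_mul_eq_mul_div, one_mul]
    exact (large hε.1 hε.2).2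

/-- **The ends of the range.** There is a function `κ` on `(0, 1/2)` such that
(1) `κ δ` is the exponent of Delsarte's linear programming bound and of the `k`-point bounds for
every fixed `k ≥ 2`, and no weights give a smaller exponent;
(2) it lies strictly below the bound `1 - H(p)` of Elias and Bassalygo at the distance
`q = 2 p (1 - p)`, but it is at least `1 - H(p)` at the distance `q (1 - 2 q) / (1 - q ^ 2)`;
(3) `H(δ / 2) < 1 - κ δ ≤ (1 + 6 δ) H(δ / 2)` for `0 < δ ≤ 1 / 10`, so the quotient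
`(1 - κ δ) / H(δ / 2)` tends to `1` as `δ → 0`;
(4) `H(ε² / (1 + ε²)) - H(ε⁴ / (1 + ε⁴)) ≤ κ(1/2 - ε) < H(1/2 - √(1/4 - ε²))` for `0 < ε < 1/2`;
(5) `(1 - 4 ε²) H(ε²) ≤ κ(1/2 - ε) ≤ H(ε²) / (1 - 2 ε²)`, so the quotient `κ(1/2 - ε) / H(ε²)`
tends to `1` as `ε → 0`. -/
theorem result : ∃ κ : ℝ → ℝ,
    (∀ δ : ℝ, 0 < δ → δ < 1 / 2 →
      Tendsto (fun n : ℕ => Real.logb 2 (LP n ⌈δ * n⌉₊) / n) atTop (𝓝 (κ δ)) ∧
      ∀ k : ℕ, 2 ≤ k →
        Tendsto (fun n : ℕ => Real.logb 2 (KP k n ⌈δ * n⌉₊) / n) atTop (𝓝 (κ δ)) ∧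
        ∀ ε : ℝ, 0 < ε → ∃ n₀ : ℕ, ∀ n ≥ n₀, ∀ w : (Fin n → Bool) → ℝ, (∀ x, 0 ≤ w x) →
          (2 : ℝ) ^ ((κ δ - ε) * n) * ∑ x, w x ≤ 2 ^ n * KPw k n ⌈δ * n⌉₊ w) ∧
    (∀ p q : ℝ, 0 < p → p < 1 / 2 → q = 2 * p * (1 - p) →
      κ q < 1 - H p ∧ 1 - H p ≤ κ (q * (1 - 2 * q) / (1 - q ^ 2))) ∧
    (∀ δ : ℝ, 0 < δ → δ ≤ 1 / 10 →
      H (δ / 2) < 1 - κ δ ∧ 1 - κ δ ≤ (1 + 6 * δ) * H (δ / 2)) ∧
    Tendsto (fun δ => (1 - κ δ) / H (δ / 2)) (𝓝[>] 0) (𝓝 1) ∧
    (∀ ε : ℝ, 0 < ε → ε < 1 / 2 →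
      H (ε ^ 2 / (1 + ε ^ 2)) - H (ε ^ 4 / (1 + ε ^ 4)) ≤ κ (1 / 2 - ε) ∧
      κ (1 / 2 - ε) < H (1 / 2 - √(1 / 4 - ε ^ 2))) ∧
    (∀ ε : ℝ, 0 < ε → ε < 1 / 2 →
      (1 - 4 * ε ^ 2) * H (ε ^ 2) ≤ κ (1 / 2 - ε) ∧
      κ (1 / 2 - ε) ≤ H (ε ^ 2) / (1 - 2 * ε ^ 2)) ∧
    Tendsto (fun ε => κ (1 / 2 - ε) / H (ε ^ 2)) (𝓝[>] 0) (𝓝 1) := by
  refine ⟨κ, fun δ h0 h1 => ?_, fun p q hp0 hp1 hq => ?_, fun δ h0 h1 => small h0 h1,
    tendsto_small, fun ε h0 h1 => ?_, fun ε h0 h1 => large h0 h1, tendsto_large⟩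
  · have h := κ_pt h0 h1
    exact ⟨h.lp, fun k hk => ⟨h.kp hk, fun ε hε => h.weights (by omega) hε⟩⟩
  · have hq0 : 0 < q := by
      rw [hq]
      have : 0 < 1 - p := by linarith
      positivity
    have hq1 : q < 1 / 2 := by
      rw [hq]
      nlinarith [mul_pos (sub_pos.2 hp1) (sub_pos.2 hp1)]
    have h1 := (κ_pt hq0 hq1).lt_elias hq1
    rw [elias_point hp1 hq] at h1
    have h2 : 0 < 1 - q ^ 2 := by nlinarith
    have h3 : 0 < q * (1 - 2 * q) / (1 - q ^ 2) :=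
      div_pos (mul_pos hq0 (by linarith)) h2
    have h4 : q * (1 - 2 * q) / (1 - q ^ 2) < 1 / 2 := by
      rw [div_lt_iff₀ h2]
      nlinarith
    exact ⟨h1, (κ_pt h3 h4).ge_zero hp0 hp1 hq le_rfl⟩
  · have h := κ_pt (δ := 1 / 2 - ε) (by linarith) (by linarith)
    exact ⟨h.ge_half h0, h.lt_mrrw h0⟩

end Pool.Agent.Results.MP_0430e4_lc.EndsOfTheRange
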