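import Pool.Agent.Q313.NG.Asy

/-!
# MP_0430e4_lc: good binary codes have exponentially many pairs at intermediate distances

Let `C` be a binary code, linear or not, of length `n` and minimum distance at least `d`. We compare
its size with the number of pairs of codewords at distance well inside the interval `(d, 2 d)`: up to
factors `2^(ε n)`, `|C| / A(n, (2 - η) d)` is at most one plus the average number of codewords whose
distance from a codeword is strictly between `(1 + η) d` and `(2 - η) d`. In particular every code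
of relative distance `δ < 1/4` whose rate is at least `1 - H(δ) - c` (so every asymptotically optimal
code, and every code better than the Gilbert-Varshamov bound) has on average exponentially many
codewords at such distances from a codeword.
-/

open Filter
open scoped Topology

namespace Pool.Agent.Results.MP_0430e4_lc.IntermediateDistances

/-- Binary words of length `n`. -/
abbrev Word (n : ℕ) := Fin n → ZMod 2

/-- `C` has minimum distance at least `w`. -/
def MinDist {n : ℕ} (C : Finset (Word n)) (w : ℝ) : Prop :=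
  ∀ x ∈ C, ∀ y ∈ C, x ≠ y → w ≤ hammingDist x y

/-- `A(n, w)`: the largest size of a binary code of length `n` and minimum distance at least `w`. -/
noncomputable def A (n : ℕ) (w : ℝ) : ℕ := sSup {k | ∃ C : Finset (Word n), MinDist C w ∧ C.card = k}

/-- The number of ordered pairs of codewords at distance strictly between `a` and `b`. -/
noncomputable def pairsBetween {n : ℕ} (C : Finset (Word n)) (a b : ℝ) : ℕ :=
  Set.ncard {p : Word n × Word n | p.1 ∈ C ∧ p.2 ∈ C ∧ a < hammingDist p.1 p.2 ∧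
    (hammingDist p.1 p.2 : ℝ) < b}

/-- The binary entropy function. -/
noncomputable def H (x : ℝ) : ℝ := -x * Real.logb 2 x - (1 - x) * Real.logb 2 (1 - x)

open Pool.Agent.Q313.NG

lemma pairs_eq {n : ℕ} (C : Finset (Word n)) (a b : ℝ) : pairsBetween C a b = pairs C a b := by
  classical
  have h1 : {p : Word n × Word n | p.1 ∈ C ∧ p.2 ∈ C ∧ a < hammingDist p.1 p.2 ∧
      (hammingDist p.1 p.2 : ℝ) < b} = ((C.sigma (fun x => midN C a b x)).image
        (fun p => (p.1, p.2)) : Finset (Word n × Word n)) := by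
    ext p
    simp only [Finset.coe_image, Set.mem_image, Finset.mem_coe, Finset.mem_sigma, mem_midN]
    constructor
    · intro h
      exact ⟨⟨p.1, p.2⟩, ⟨h.1, h.2⟩, rfl⟩
    · rintro ⟨⟨x, y⟩, ⟨h1, h2⟩, rfl⟩
      exact ⟨h1, h2⟩
  rw [pairsBetween, h1, Set.ncard_coe_finset, Finset.card_image_of_injOn, Finset.card_sigma]
  · rfl
  · rintro ⟨x, y⟩ _ ⟨x', y'⟩ _ h
    simp only [Prod.mk.injEq] at h
    rw [h.1, h.2]

lemma A_bdd (n : ℕ) (w : ℝ) : BddAbove {k | ∃ C : Finset (Word n), MinDist C w ∧ C.card = k} := by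
  refine ⟨Fintype.card (Word n), ?_⟩
  rintro k ⟨C, -, rfl⟩
  exact Finset.card_le_univ C

lemma le_A {n : ℕ} {w : ℝ} {C : Finset (Word n)} (h : MinDist C w) : C.card ≤ A n w :=
  le_csSup (A_bdd n w) ⟨C, h, rfl⟩

lemma A_mem (n : ℕ) (w : ℝ) : ∃ C : Finset (Word n), MinDist C w ∧ C.card = A n w := by
  have : A n w ∈ {k | ∃ C : Finset (Word n), MinDist C w ∧ C.card = k} :=
    Nat.sSup_mem ⟨0, ∅, by intro x hx; simp at hx, by simp⟩ (A_bdd n w)
  exact this

open Pool.Agent.H235R2.QLP Pool.Agent.TH220.LC in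
lemma H_eq (x : ℝ) : H x = Hq 2 x := by
  rw [Hq_eq le_rfl, Real.qaryEntropy_two]
  unfold H Real.binEntropy Real.logb
  rw [Real.log_inv, Real.log_inv]
  push_cast
  ring

/-- **Intermediate distances.** -/
theorem result :
    (∀ ε : ℝ, 0 < ε → ∃ η₀ : ℝ, 0 < η₀ ∧ η₀ < 1 / 100 ∧ ∀ η : ℝ, 0 < η → η ≤ η₀ →
      ∃ n₀ : ℕ, ∀ n ≥ n₀, ∀ d : ℝ, 0 < d → ∀ C : Finset (Word n), MinDist C d →
        (C.card : ℝ) ^ 2 ≤ (2 : ℝ) ^ (ε * n) * A n ((2 - η) * d) *
          (pairsBetween C ((1 + η) * d) ((2 - η) * d) + C.card)) ∧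
    ∀ δ : ℝ, 0 < δ → δ < 1 / 4 → ∃ η c : ℝ, 0 < η ∧ η < 1 / 100 ∧ 0 < c ∧
      ∃ n₀ : ℕ, ∀ n ≥ n₀, ∀ d : ℝ, δ * n ≤ d → ∀ C : Finset (Word n), MinDist C d →
        (2 : ℝ) ^ ((1 - H δ - c) * n) ≤ C.card →
          (2 : ℝ) ^ (c * n) * C.card ≤ pairsBetween C ((1 + η) * d) ((2 - η) * d) := by
  have part1 : ∀ ε : ℝ, 0 < ε → ∃ η₀ : ℝ, 0 < η₀ ∧ η₀ < 1 / 100 ∧ ∀ η : ℝ, 0 < η → η ≤ η₀ →
      ∃ n₀ : ℕ, ∀ n ≥ n₀, ∀ d : ℝ, 0 < d → ∀ C : Finset (Word n), MinDist C d →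
        (C.card : ℝ) ^ 2 ≤ (2 : ℝ) ^ (ε * n) * A n ((2 - η) * d) *
          (pairsBetween C ((1 + η) * d) ((2 - η) * d) + C.card) := by
    intro ε hε
    obtain ⟨η₀, h0, h1, h2⟩ := gap_asym (ZMod 2) hε
    refine ⟨η₀, h0, h1, fun η hη0 hη1 => ?_⟩
    obtain ⟨n₀, h3⟩ := h2 η hη0 hη1
    refine ⟨n₀, fun n hn d hd C hC => ?_⟩
    rw [pairs_eq]
    exact h3 n hn d hd C hC _ fun Q hQ => le_A hQ
  refine ⟨part1, fun δ h0 h1 => ?_⟩
  have hlt := Pool.Agent.TH220.LC.elias_lt (q := 2) le_rfl h0 (by norm_num; linarith)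
  rw [← H_eq] at hlt
  set g := 1 - H δ with hg
  set e2 := Pool.Agent.H235R2.QLP.elias 2 (2 * δ) with he2
  set c0 : ℝ := (g - e2) / 2 with hc0
  have hc0p : 0 < c0 := by rw [hc0]; linarith
  obtain ⟨η₀, hη₀, hη₁, hpart⟩ := part1 (c0 / 4) (by positivity)
  have hη1 : ∀ᶠ η in 𝓝[>] (0 : ℝ), Pool.Agent.H235R2.QLP.elias 2 ((2 - η) * δ) < g - c0 := by
    have h2 : Tendsto (fun η => Pool.Agent.H235R2.QLP.elias 2 ((2 - η) * δ)) (𝓝[>] 0)
        (𝓝 (Pool.Agent.H235R2.QLP.elias 2 ((2 - 0) * δ))) := by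
      apply Tendsto.mono_left _ nhdsWithin_le_nhds
      apply Continuous.tendsto
      exact (Pool.Agent.TH220.LC.continuous_elias le_rfl).comp (by fun_prop)
    rw [sub_zero] at h2
    apply h2.eventually (gt_mem_nhds _)
    rw [hc0]
    linarith
  have hI : ∀ᶠ η in 𝓝[>] (0 : ℝ), η ∈ Set.Ioo (0 : ℝ) η₀ := Ioo_mem_nhdsGT hη₀
  obtain ⟨η, hη, hηI⟩ := (hη1.and hI).exists
  obtain ⟨n₁, hn₁⟩ := hpart η hηI.1 hηI.2.le
  have hδ' : 0 < (2 - η) * δ := mul_pos (by linarith [hηI.2]) h0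
  have hδ'1 : (2 - η) * δ < 1 - 1 / ((Fintype.card (ZMod 2) : ℕ) : ℝ) := by
    rw [ZMod.card]
    have := hηI.1
    norm_num
    nlinarith
  obtain ⟨β0, hβ0n, hβ0, n₂, hn₂⟩ := Pool.Agent.H235R2.QLP.codes (ZMod 2)
    (by rw [ZMod.card]) hδ' hδ'1
  rw [ZMod.card] at hβ0 hδ'1
  have hβ0' : β0 < g - c0 := by
    have h2 := Pool.Agent.H235R2.QLP.Bq_le_chord (by norm_num : 0 < 2) (r := 1)
      (δ₁ := (2 - η) * δ) (δ₂ := (2 - η) * δ)
      zero_le_one le_rfl (by rw [one_mul, sub_self, zero_mul, add_zero]; exact hδ'.le)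
      (Pool.Agent.H235R2.QLP.ach_elias le_rfl hδ'.le hδ'1.le)
      (Pool.Agent.H235R2.QLP.ach_elias le_rfl hδ'.le hδ'1.le)
    rw [one_mul, sub_self, zero_mul, zero_mul, add_zero, one_mul, add_zero] at h2
    linarith
  refine ⟨η, c0 / 4, hηI.1, hηI.2.trans hη₁, by positivity,
    max (max n₁ n₂) (⌈1 / (c0 / 4)⌉₊ + 1), ?_⟩
  intro n hn d hd C hC hsize
  have hnn1 : n₁ ≤ n := (le_max_left _ _).trans ((le_max_left _ _).trans hn)
  have hnn2 : n₂ ≤ n := (le_max_right _ _).trans ((le_max_left _ _).trans hn)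
  have hnc : ⌈1 / (c0 / 4)⌉₊ + 1 ≤ n := (le_max_right _ _).trans hn
  have hn0R : (0 : ℝ) < n := by
    have : 0 < n := by omega
    exact_mod_cast this
  have hd0 : 0 < d := lt_of_lt_of_le (by positivity) hd
  have hcn : 1 ≤ c0 / 4 * n := by
    have h2 : 1 / (c0 / 4) ≤ (n : ℝ) := by
      refine (Nat.le_ceil _).trans ?_
      exact_mod_cast (by omega : ⌈1 / (c0 / 4)⌉₊ ≤ n)
    rw [div_le_iff₀ (by positivity)] at h2
    linarith
  have hA : (A n ((2 - η) * d) : ℝ) ≤ (2 : ℝ) ^ ((g - c0) * n) := by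
    obtain ⟨Q, hQ, hQc⟩ := A_mem n ((2 - η) * d)
    rw [← hQc]
    have h2 := hn₂ n hnn2 Q (fun x hx y hy hxy => by
      refine le_trans ?_ (hQ x hx y hy hxy)
      have : (2 - η) * (δ * n) ≤ (2 - η) * d :=
        mul_le_mul_of_nonneg_left hd (by linarith [hηI.2])
      linarith)
    rw [ZMod.card] at h2
    refine h2.trans ?_
    push_cast
    exact Real.rpow_le_rpow_of_exponent_le (by norm_num)
      (mul_le_mul_of_nonneg_right hβ0'.le hn0R.le)
  have hmain := hn₁ n hnn1 d hd0 C hC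
  set P : ℝ := (pairsBetween C ((1 + η) * d) ((2 - η) * d) : ℝ) with hP
  set X : ℝ := (2 : ℝ) ^ (c0 / 4 * n) with hX
  have hX2 : 2 ≤ X := by
    calc (2 : ℝ) = (2 : ℝ) ^ (1 : ℝ) := by rw [Real.rpow_one]
      _ ≤ X := Real.rpow_le_rpow_of_exponent_le (by norm_num) hcn
  have hcpos : (0 : ℝ) < C.card := lt_of_lt_of_le (by positivity) hsize
  have hP0 : 0 ≤ P := Nat.cast_nonneg _
  set Z : ℝ := (2 : ℝ) ^ ((g - c0) * n) with hZ
  have hZ0 : 0 < Z := by positivity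
  have e1 : (2 : ℝ) ^ ((g - c0 / 4) * n) = Z * X ^ 3 := by
    rw [hZ, hX, ← Real.rpow_natCast ((2 : ℝ) ^ (c0 / 4 * n)), ← Real.rpow_mul two_pos.le,
      ← Real.rpow_add two_pos]
    congr 1
    push_cast
    ring
  rw [e1] at hsize
  have h3 : (C.card : ℝ) * (C.card : ℝ) ≤ X * Z * (P + C.card) := by
    calc (C.card : ℝ) * C.card = (C.card : ℝ) ^ 2 := (sq _).symm
      _ ≤ X * (A n ((2 - η) * d) : ℝ) * (P + C.card) := hmain
      _ ≤ X * Z * (P + C.card) := by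
          apply mul_le_mul_of_nonneg_right _ (by positivity)
          exact mul_le_mul_of_nonneg_left hA (by positivity)
  have h4 : Z * X ^ 3 * C.card ≤ X * Z * (P + C.card) :=
    (mul_le_mul_of_nonneg_right hsize hcpos.le).trans h3
  have h5 : X ^ 2 * C.card ≤ P + C.card := by
    have h6 : (X * Z) * (X ^ 2 * C.card) ≤ (X * Z) * (P + C.card) := by
      calc (X * Z) * (X ^ 2 * C.card) = Z * X ^ 3 * C.card := by ring
        _ ≤ _ := h4
    exact le_of_mul_le_mul_left h6 (by positivity)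
  nlinarith

end Pool.Agent.Results.MP_0430e4_lc.IntermediateDistances
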