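import Pool.Agent.Y570.KP.Complete
import Pool.Agent.TH41.BL.DEL
import Pool.Agent.TH41.BL.PK9

/-!
# MP_0430e4_lc: the exponent of the k-point semidefinite bounds for binary codes

Schrijver's three-point bound and the `k`-point bounds which generalise it are the standard
strengthenings of Delsarte's linear programming bound. A pseudo-code of level `k` is a real function
`y` on sets of words which behaves like `y(S) = Prob(S ⊆ C)` for a random code `C` with minimum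
distance `d`: `y(∅) = 1`, `y(S) = 0` if `S` has two words at distance less than `d`; for all `D` and
`E` with `|D| + |E| ≤ k` the pseudo-probability of `D ⊆ C, E ∩ C = ∅` is nonnegative; and for all
`D` and `E` with `|D| + |E| + 2 ≤ k`, the matrix of the pseudo-probabilities of
`D ∪ S ∪ T ⊆ C, E ∩ C = ∅`, where `S` and `T` run over `∅` and the singletons, is positive
semidefinite. The bound `KP k n d` is the largest value of `∑_x y({x})`, and for nonnegative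
weights `w` (for instance for the words of one weight) `KPw k n d w` is the largest value of
`∑_x w(x) y({x})`.

We show that for every fixed `k ≥ 2` and every `0 < δ < 1/2` the exponent of the `k`-point bound is
exactly the exponent of Delsarte's linear program, although the bounds become exact for `k = 2^n`,
and that no weights help: the bound which one gets from `KPw k n d w` by the inequality of Elias
and Bassalygo has at least this exponent, uniformly in `w`.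
-/

open Filter Topology

namespace Pool.Agent.Results.MP_0430e4_lc.KPointBounds

/-- `A(n,d)`: the largest size of a binary code of length `n` with minimum distance at least `d`. -/
noncomputable def A (n d : ℕ) : ℕ :=
  sSup {m | ∃ C : Finset (Fin n → Bool),
    (∀ x ∈ C, ∀ y ∈ C, x ≠ y → d ≤ hammingDist x y) ∧ C.card = m}

/-- The binary Krawtchouk polynomial `K_j` of length `n` at `w`,
`∑_i (-1)^i (w choose i) (n - w choose j - i)`. -/
def krawtchouk (n j w : ℕ) : ℤ :=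
  ∑ i ∈ Finset.range (j + 1), (-1) ^ i * (w.choose i : ℤ) * ((n - w).choose (j - i) : ℤ)

/-- `f(w) = ∑_{j ≤ n} l_j K_j(w)`. -/
noncomputable def combination (n : ℕ) (l : ℕ → ℝ) (w : ℕ) : ℝ :=
  ∑ j ∈ Finset.range (n + 1), l j * (krawtchouk n j w : ℝ)

/-- The feasible solutions of Delsarte's linear program for binary codes of length `n` and minimum
distance `d`. Each of them gives the bound `A(n, d) ≤ f(0) / l_0`. -/
structure IsFeasible (n d : ℕ) (l : ℕ → ℝ) : Prop where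
  nonneg : ∀ j, 0 ≤ l j
  pos : 0 < l 0
  nonpos : ∀ w : ℕ, d ≤ w → w ≤ n → combination n l w ≤ 0

/-- The value of Delsarte's linear program: the infimum of the bounds `f(0) / l_0`. -/
noncomputable def LP (n d : ℕ) : ℝ :=
  sInf {v : ℝ | ∃ l : ℕ → ℝ, IsFeasible n d l ∧ v = combination n l 0 / l 0}

/-- The pseudo-probability of `D ∪ S ⊆ C, E ∩ C = ∅`: `∑_{F ⊆ E} (-1)^|F| y(D ∪ F ∪ S)`. -/
def pseudoProb {n : ℕ} (y : Finset (Fin n → Bool) → ℝ) (D E S : Finset (Fin n → Bool)) : ℝ :=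
  ∑ F ∈ E.powerset, (-1) ^ F.card * y (D ∪ F ∪ S)

/-- Pseudo-codes of level `k`, length `n` and minimum distance `d`. In the last condition `s` and
`t` run over `none`, which stands for `∅`, and the words `x`, which stand for `{x}`. -/
structure IsPseudoCode (k n d : ℕ) (y : Finset (Fin n → Bool) → ℝ) : Prop where
  one : y ∅ = 1
  dist : ∀ S : Finset (Fin n → Bool), ∀ u ∈ S, ∀ v ∈ S, u ≠ v → hammingDist u v < d → y S = 0
  nonneg : ∀ D E : Finset (Fin n → Bool), D.card + E.card ≤ k → 0 ≤ pseudoProb y D E ∅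
  psd : ∀ D E : Finset (Fin n → Bool), D.card + E.card + 2 ≤ k →
    ∀ a : Option (Fin n → Bool) → ℝ,
      0 ≤ ∑ s, ∑ t, a s * a t * pseudoProb y D E (s.toFinset ∪ t.toFinset)

/-- The `k`-point bound with weights: the largest value of `∑_x w(x) y({x})`. -/
noncomputable def KPw (k n d : ℕ) (w : (Fin n → Bool) → ℝ) : ℝ :=
  sSup {v : ℝ | ∃ y, IsPseudoCode k n d y ∧ v = ∑ x, w x * y {x}}

/-- The `k`-point bound: the largest value of `∑_x y({x})`. -/
noncomputable def KP (k n d : ℕ) : ℝ := sSup {v : ℝ | ∃ y, IsPseudoCode k n d y ∧ v = ∑ x, y {x}}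

/-- `η(x) = -x log₂ x`, with `η(0) = 0`. -/
noncomputable def η (x : ℝ) : ℝ := -x * Real.logb 2 x

/-- The binary entropy function. -/
noncomputable def H (x : ℝ) : ℝ := η x + η (1 - x)

/-- `h(x) = H(1/2 - 1/2 √(1 - x))`. -/
noncomputable def h (x : ℝ) : ℝ := H (1 / 2 - 1 / 2 * √(1 - x))

/-- `α_k(e) = ∑_j sech²((2 j + k) e) / ∑_j sech((2 j + k) e)`, sums over all integers `j`. -/
noncomputable def α (k : ℤ) (e : ℝ) : ℝ :=
  (∑' j : ℤ, 1 / Real.cosh ((2 * j + k) * e) ^ 2) / ∑' j : ℤ, 1 / Real.cosh ((2 * j + k) * e)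

/-- `S(e) = h(sech² e) - h(sech² 2e) + h(sech² 3e) - …`. -/
noncomputable def S (e : ℝ) : ℝ := ∑' n : ℕ, (-1) ^ n * h (1 / Real.cosh ((n + 1) * e) ^ 2)

/-- The curve of the exponents `θ` of Delsarte's linear program for the relative distances `δ`. -/
def Curve : Set (ℝ × ℝ) :=
  {p | (∃ e : ℝ, 0 < e ∧ p = ((1 - α 1 e) / 2, S e)) ∨
    (∃ e : ℝ, 0 < e ∧ p = ((1 - α 0 e) / 2, 1 - S e)) ∨ p = (1 / 2 - 1 / Real.pi, 1 / 2)}

open Pool.Agent.TH41.BL Pool.Agent.Y570.KP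

lemma α_zero (e : ℝ) : α 0 e = A2s e / As e := by
  unfold α A2s As
  simp

lemma α_one (e : ℝ) : α 1 e = B2s e / Bs e := by
  unfold α B2s Bs
  simp

lemma S_eq (e : ℝ) : S e = Ss e := rfl

lemma feas_iff (n d : ℕ) (l : ℕ → ℝ) : IsFeasible n d l ↔ Feas n d l :=
  ⟨fun h => ⟨h.nonneg, h.pos, h.nonpos⟩, fun h => ⟨h.1, h.2.1, h.2.2⟩⟩

lemma comb_zero (n : ℕ) (l : ℕ → ℝ) : combination n l 0 = Vl n l := (FINf.Vl_eq n l).symm

lemma LP_eq (n d : ℕ) : LP n d = FINf.LPv n d := by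
  unfold LP FINf.LPv
  congr 1
  ext v
  simp only [Set.mem_ofPred_eq, feas_iff, comb_zero]

lemma A_bdd (n d : ℕ) : BddAbove {m | ∃ C : Finset (Fin n → Bool),
    (∀ x ∈ C, ∀ y ∈ C, x ≠ y → d ≤ hammingDist x y) ∧ C.card = m} := by
  refine ⟨Fintype.card (Fin n → Bool), ?_⟩
  rintro k ⟨C, -, rfl⟩
  exact Finset.card_le_univ C

lemma A_mem (n d : ℕ) : ∃ C : Finset (Fin n → Bool),
    (∀ x ∈ C, ∀ y ∈ C, x ≠ y → d ≤ hammingDist x y) ∧ C.card = A n d := by
  have : A n d ∈ {k | ∃ C : Finset (Fin n → Bool),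
      (∀ x ∈ C, ∀ y ∈ C, x ≠ y → d ≤ hammingDist x y) ∧ C.card = k} :=
    Nat.sSup_mem ⟨0, ∅, by simp, by simp⟩ (A_bdd n d)
  exact this

lemma le_A {n d : ℕ} {C : Finset (Fin n → Bool)}
    (hC : ∀ x ∈ C, ∀ y ∈ C, x ≠ y → d ≤ hammingDist x y) : C.card ≤ A n d :=
  le_csSup (A_bdd n d) ⟨C, hC, rfl⟩

lemma one_le_A (n d : ℕ) : 1 ≤ A n d := by
  have h := le_A (n := n) (d := d) (C := {fun _ => false}) (by
    intro x hx y hy hxy
    rw [Finset.mem_singleton] at hx hy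
    exact absurd (hx.trans hy.symm) hxy)
  simpa using h

lemma pc_iff (k n d : ℕ) (y : Finset (Fin n → Bool) → ℝ) : IsPseudoCode k n d y ↔ PC n d k y :=
  ⟨fun h => ⟨h.one, h.dist, h.nonneg, h.psd⟩, fun h => ⟨h.one, h.dist, h.nonneg, h.psd⟩⟩

lemma KPw_eq (k n d : ℕ) (w : (Fin n → Bool) → ℝ) : KPw k n d w = SW n d k w := by
  unfold KPw SW
  simp only [pc_iff]

lemma KP_eq (k n d : ℕ) : KP k n d = SW n d k (fun _ => 1) := by
  unfold KP SW
  simp only [pc_iff, one_mul]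

lemma point {δ θ : ℝ} (h : (δ, θ) ∈ Curve) :
    0 < δ ∧ LIMf.Be δ (θ * Real.log 2) ∧ UB δ θ ∧ Ke δ (θ * Real.log 2) := by
  have hpi := Real.pi_pos
  obtain ⟨c1, c2, c3⟩ := k7_cv
  rcases h with ⟨e, he, hp⟩ | ⟨e, he, hp⟩ | hp
  · obtain ⟨h2, h3⟩ := Prod.mk.inj hp
    subst h2 h3
    have h4 := CV7f.al_lt_one he (k := 1) (by norm_num)
    rw [CV7f.al_one] at h4
    rw [α_one, S_eq]
    have h5 : 0 < (1 - B2s e / Bs e) / 2 := by linarith
    exact ⟨h5, be_two he, c2 e he, ke_two k7_chr he h5.le⟩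
  · obtain ⟨h2, h3⟩ := Prod.mk.inj hp
    subst h2 h3
    have h4 := CV7f.al_lt_one he (k := 0) le_rfl
    rw [CV7f.al_zero] at h4
    rw [α_zero, S_eq]
    exact ⟨by linarith, be_one he, c1 e he, ke_one k7_chr he⟩
  · obtain ⟨h2, h3⟩ := Prod.mk.inj hp
    subst h2 h3
    refine ⟨?_, be_mid, c3, ke_mid k7_chr⟩
    have : 1 / Real.pi < 1 / 2 := one_div_lt_one_div_of_lt (by norm_num) (by linarith [Real.pi_gt_three])
    linarith

lemma curve_cover (δ : ℝ) (h0 : 0 < δ) (h1 : δ < 1 / 2) : ∃ θ, (δ, θ) ∈ Curve := by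
  have hpi := Real.pi_pos
  rcases lt_trichotomy δ (1 / 2 - 1 / Real.pi) with h | h | h
  · obtain ⟨e, he, hv⟩ := Pool.Agent.TH753.FF.exists_zero (y := 1 - 2 * δ)
      (by rw [show 2 / Real.pi = 2 * (1 / Real.pi) by ring]; linarith) (by linarith)
    refine ⟨1 - S e, Or.inr (Or.inl ⟨e, he, ?_⟩)⟩
    rw [α_zero, ← CV7f.al_zero, hv]
    congr 1
    ring
  · exact ⟨1 / 2, Or.inr (Or.inr (by rw [h]))⟩
  · obtain ⟨e, he, hv⟩ := Pool.Agent.TH753.FF.exists_one (y := 1 - 2 * δ) (by linarith)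
      (by rw [show 2 / Real.pi = 2 * (1 / Real.pi) by ring]; linarith)
    refine ⟨S e, Or.inl ⟨e, he, ?_⟩⟩
    rw [α_one, ← CV7f.al_one, hv]
    congr 1
    ring

lemma bdd_one {k n d : ℕ} (hk : 1 ≤ k) :
    BddAbove {v : ℝ | ∃ y, PC n d k y ∧ v = ∑ x, (fun _ => (1 : ℝ)) x * y {x}} :=
  bdd_SW hk (fun _ => zero_le_one)

lemma KP_le_LP {k n d : ℕ} (hk : 2 ≤ k) (hd : 1 ≤ d) : KP k n d ≤ LP n d := by
  rw [KP_eq, LP_eq]
  refine le_csInf ⟨_, _, DELf.feas_one hd, rfl⟩ ?_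
  rintro v ⟨l, hl, rfl⟩
  refine csSup_le ⟨_, _, pc_code (k := k) (d := d) (∅ : Finset (Fin n → Bool)) (by simp), rfl⟩ ?_
  rintro v ⟨y, hy, rfl⟩
  simp only [one_mul]
  exact hy.le_lp k7_chr hk hl

lemma A_le_KP {k n d : ℕ} (hk : 1 ≤ k) : (A n d : ℝ) ≤ KP k n d := by
  obtain ⟨C, hC, hcard⟩ := A_mem n d
  rw [KP_eq, ← hcard]
  have h := code_le (k := k) hk C hC (w := fun _ => (1 : ℝ)) (fun _ => zero_le_one)
  simpa using h

lemma KP_anti {k n d : ℕ} (hk : 1 ≤ k) : KP (k + 1) n d ≤ KP k n d := by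
  rw [KP_eq, KP_eq]
  refine csSup_le_csSup (bdd_one hk)
    ⟨_, _, pc_code (k := k + 1) (d := d) (∅ : Finset (Fin n → Bool)) (by simp), rfl⟩ ?_
  rintro v ⟨y, hy, rfl⟩
  exact ⟨y, hy.mono (Nat.le_succ k), rfl⟩

lemma KP_full {k n d : ℕ} (hk : 2 ^ n ≤ k) : KP k n d = A n d := by
  have hk1 : 1 ≤ k := le_trans (Nat.one_le_two_pow) hk
  refine le_antisymm ?_ (A_le_KP hk1)
  rw [KP_eq]
  refine csSup_le ⟨_, _, pc_code (k := k) (d := d) (∅ : Finset (Fin n → Bool)) (by simp), rfl⟩ ?_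
  rintro v ⟨y, hy, rfl⟩
  simp only [one_mul]
  exact full_level hk hy (A n d) fun C hC => le_A hC

lemma ceil_le {δ : ℝ} (h0 : 0 < δ) (n : ℕ) : ((⌈δ * n⌉₊ : ℕ) : ℝ) ≤ δ * n + 1 :=
  (Nat.ceil_lt_add_one (by positivity)).le

/-- the uniform lower bound -/
lemma weights {δ θ : ℝ} (h : (δ, θ) ∈ Curve) {k : ℕ} (hk : 1 ≤ k) {ε : ℝ} (hε : 0 < ε) :
    ∃ n₀ : ℕ, ∀ n ≥ n₀, ∀ w : (Fin n → Bool) → ℝ, (∀ x, 0 ≤ w x) →
      (2 : ℝ) ^ ((θ - ε) * n) * ∑ x, w x ≤ 2 ^ n * KPw k n ⌈δ * n⌉₊ w := by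
  obtain ⟨hδ, -, -, hke⟩ := point h
  have hlog : 0 < Real.log 2 := Real.log_pos (by norm_num)
  obtain ⟨n₀, hn₀⟩ := lower hk hke (ε * Real.log 2) (by positivity)
  refine ⟨max n₀ 1, fun n hn w hw => ?_⟩
  have hn1 : 1 ≤ n := le_trans (le_max_right _ _) hn
  have hnp : (0 : ℝ) < n := by exact_mod_cast hn1
  have hd1 : 1 ≤ ⌈δ * n⌉₊ := Nat.one_le_iff_ne_zero.2 (by
    intro h0
    rw [Nat.ceil_eq_zero] at h0
    have : 0 < δ * n := by positivity
    linarith)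
  have h1 := hn₀ n (le_trans (le_max_left _ _) hn) ⌈δ * n⌉₊ hd1 (ceil_le hδ n) w hw
  rw [KPw_eq]
  refine le_trans (le_of_eq ?_) h1
  congr 1
  rw [Real.rpow_def_of_pos (by norm_num)]
  congr 1
  ring

/-- **The exponent of the `k`-point semidefinite bounds.** (1) and (2): the `k`-point bounds are
valid, decreasing in `k`, at most Delsarte's bound for `k ≥ 2`, and exact for `k ≥ 2^n`; with weights
they give the bound `2^n KPw / ∑ w` of Elias and Bassalygo. (3) and (4): for every fixed `k ≥ 2` and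
`0 < δ < 1/2` the exponent of `KP k n ⌈δ n⌉` is the exponent `θ` of Delsarte's linear program.
(5) No choice of the weights gives a smaller exponent. -/
theorem result :
    (∀ k n d : ℕ, 1 ≤ k → (A n d : ℝ) ≤ KP k n d ∧ KP (k + 1) n d ≤ KP k n d ∧
      (2 ≤ k → 1 ≤ d → KP k n d ≤ LP n d) ∧ (2 ^ n ≤ k → KP k n d = A n d)) ∧
    (∀ k n d : ℕ, 1 ≤ k → ∀ w : (Fin n → Bool) → ℝ, (∀ x, 0 ≤ w x) →
      (A n d : ℝ) * ∑ x, w x ≤ 2 ^ n * KPw k n d w) ∧
    (∀ δ : ℝ, 0 < δ → δ < 1 / 2 → ∃ θ, (δ, θ) ∈ Curve) ∧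
    (∀ k : ℕ, 2 ≤ k → ∀ δ θ : ℝ, (δ, θ) ∈ Curve →
      Tendsto (fun n : ℕ => Real.logb 2 (LP n ⌈δ * n⌉₊) / n) atTop (𝓝 θ) ∧
      Tendsto (fun n : ℕ => Real.logb 2 (KP k n ⌈δ * n⌉₊) / n) atTop (𝓝 θ)) ∧
    ∀ k : ℕ, 2 ≤ k → ∀ δ θ ε : ℝ, (δ, θ) ∈ Curve → 0 < ε → ∃ n₀ : ℕ, ∀ n ≥ n₀,
      ∀ w : (Fin n → Bool) → ℝ, (∀ x, 0 ≤ w x) →
        (2 : ℝ) ^ ((θ - ε) * n) * ∑ x, w x ≤ 2 ^ n * KPw k n ⌈δ * n⌉₊ w := by
  refine ⟨fun k n d hk => ⟨A_le_KP hk, KP_anti hk, KP_le_LP, KP_full⟩, fun k n d hk w hw => ?_,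
    curve_cover, fun k hk δ θ h => ?_, fun k hk δ θ ε h hε => weights h (by omega) hε⟩
  · obtain ⟨C, hC, hcard⟩ := A_mem n d
    rw [KPw_eq, ← hcard]
    exact elias hk hw C hC
  · obtain ⟨h0, h1, h2, -⟩ := point h
    have hLP : Tendsto (fun n : ℕ => Real.logb 2 (LP n ⌈δ * n⌉₊) / n) atTop (𝓝 θ) := by
      simp_rw [LP_eq]
      exact FINf.limit h0 h1 h2
    refine ⟨hLP, ?_⟩
    refine tendsto_order.2 ⟨fun a ha => ?_, fun a ha => ?_⟩
    · obtain ⟨ε, hε⟩ : ∃ ε : ℝ, ε = (θ - a) / 2 := ⟨_, rfl⟩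
      have hε0 : 0 < ε := by rw [hε]; linarith
      obtain ⟨n₀, hn₀⟩ := weights h (k := k) (by omega) hε0
      filter_upwards [eventually_ge_atTop (max n₀ 1)] with n hn
      have hn1 : 1 ≤ n := le_trans (le_max_right _ _) hn
      have hnp : (0 : ℝ) < n := by exact_mod_cast hn1
      have h3 := hn₀ n (le_trans (le_max_left _ _) hn) (fun _ => 1) (fun _ => zero_le_one)
      rw [KPw_eq, ← KP_eq] at h3
      have h4 : ∑ _x : Fin n → Bool, (1 : ℝ) = 2 ^ n := by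
        rw [Finset.sum_const, Finset.card_univ, Fintype.card_fun, Fintype.card_bool,
          Fintype.card_fin]
        simp
      rw [h4, mul_comm] at h3
      have h5 : (2 : ℝ) ^ ((θ - ε) * n) ≤ KP k n ⌈δ * n⌉₊ := le_of_mul_le_mul_left h3 (by positivity)
      have h6 : (0 : ℝ) < KP k n ⌈δ * n⌉₊ := lt_of_lt_of_le (by positivity) h5
      have h7 : (θ - ε) * n ≤ Real.logb 2 (KP k n ⌈δ * n⌉₊) := by
        rw [Real.le_logb_iff_rpow_le (by norm_num) h6]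
        exact h5
      rw [lt_div_iff₀ hnp]
      nlinarith
    · have h3 := (tendsto_order.1 hLP).2 a ha
      filter_upwards [h3, eventually_ge_atTop 1] with n hn hn1
      refine lt_of_le_of_lt ?_ hn
      have hnp : (0 : ℝ) < n := by exact_mod_cast hn1
      have hd1 : 1 ≤ ⌈δ * n⌉₊ := Nat.one_le_iff_ne_zero.2 (by
        intro h0'
        rw [Nat.ceil_eq_zero] at h0'
        have : 0 < δ * n := by positivity
        linarith)
      refine div_le_div_of_nonneg_right ?_ hnp.le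
      have h4 : (0 : ℝ) < KP k n ⌈δ * n⌉₊ := by
        have h5 := A_le_KP (k := k) (n := n) (d := ⌈δ * n⌉₊) (by omega)
        have h6 : (1 : ℝ) ≤ A n ⌈δ * n⌉₊ := by exact_mod_cast one_le_A n _
        linarith
      exact Real.logb_le_logb_of_le (by norm_num) h4 (KP_le_LP hk hd1)

end Pool.Agent.Results.MP_0430e4_lc.KPointBounds
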