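import Pool.Agent.Q313.CJ.Asy

/-!
# MP_0430e4_lc: no level of the linear programming hierarchy for linear codes reaches the
Gilbert-Varshamov bound

Coregliano, Jeronimo and Jones gave a complete hierarchy of linear programs for binary linear codes:
at level `l` the unknowns are nonnegative numbers `a(x)`, `x ∈ (F_2^n)^l`, which behave like
`Prob(x_1, ..., x_l ∈ C)`: `a(0) = 1`, `a(x) = 0` if some linear combination of the `x_i` is a
nonzero word of weight less than `d`, and the Fourier transform of `a` is nonnegative (the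
MacWilliams inequalities). Level `1` is Delsarte's program. The `l`-th root of the largest value of
`∑ a(x)` is an upper bound for the size of a linear code of minimum distance `d`.

We show that for every `0 < δ < 1/2` there is `c > 0` such that for every fixed level `l` the bound
for the rate at relative distance `δ` obtained at level `l` is at least `1 - H(δ) + c / l`, so it is
strictly larger than the rate `1 - H(δ)` of Gilbert and Varshamov.
-/

open Filter

namespace Pool.Agent.Results.MP_0430e4_lc.LinearHierarchy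

/-- Binary words of length `n`. -/
abbrev Word (n : ℕ) := Fin n → ZMod 2

/-- The character `(-1)^(⟨y_1, x_1⟩ + ... + ⟨y_l, x_l⟩)` of the group of `l`-tuples of words. -/
noncomputable def sign {l n : ℕ} (y x : Fin l → Word n) : ℝ :=
  ∏ i, if ∑ k, y i k * x i k = 0 then 1 else -1

/-- The feasible solutions of level `l` of the hierarchy for length `n` and minimum distance `d`. -/
structure IsFeasible (l n d : ℕ) (a : (Fin l → Word n) → ℝ) : Prop where
  one : a 0 = 1
  nonneg : ∀ x, 0 ≤ a x
  dist : ∀ (x : Fin l → Word n) (e : Fin l → ZMod 2), ∑ i, e i • x i ≠ 0 →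
    hammingNorm (∑ i, e i • x i) < d → a x = 0
  fourier : ∀ y, 0 ≤ ∑ x, sign y x * a x

/-- The value of level `l`: the supremum of `∑ a(x)` over the feasible solutions. -/
noncomputable def value (l n d : ℕ) : ℝ :=
  sSup {v : ℝ | ∃ a : (Fin l → Word n) → ℝ, IsFeasible l n d a ∧ v = ∑ x, a x}

/-- The upper bound `(1/l) log₂ value` of level `l` for the dimension of a linear code. -/
noncomputable def dimBound (l n d : ℕ) : ℝ := Real.logb 2 (value l n d) / l

/-- The binary entropy function. -/
noncomputable def H (x : ℝ) : ℝ := -x * Real.logb 2 x - (1 - x) * Real.logb 2 (1 - x)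

open Pool.Agent.Q313.CJ

lemma sign_eq {l n : ℕ} (y x : Fin l → Word n) : sign y x = chi2 y x := rfl

lemma H_eq (x : ℝ) : H x = HH x := by
  unfold H HH Real.binEntropy Real.logb
  rw [Real.log_inv, Real.log_inv]
  ring

lemma sign_zero {l n : ℕ} (x : Fin l → Word n) : sign 0 x = 1 := by
  rw [sign_eq, chi2_comm]
  exact (chi2Char x).map_zero_eq_one

lemma sum_le {l n d : ℕ} {a : (Fin l → Word n) → ℝ} (h : IsFeasible l n d a) :
    ∑ x, a x ≤ 2 ^ (n * l) := by
  have h1 := inversion a 0
  rw [h.one, mul_one] at h1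
  have h2 : ∀ z : Fin l → Word n, chi2 z 0 = 1 := fun z => (chi2Char z).map_zero_eq_one
  simp_rw [h2, one_mul] at h1
  rw [h1]
  have h3 := Finset.single_le_sum (f := fun z : Fin l → Word n => ∑ x, chi2 z x * a x)
    (fun z _ => h.fourier z) (Finset.mem_univ 0)
  refine le_trans (le_of_eq ?_) h3
  refine Finset.sum_congr rfl fun x _ => ?_
  rw [← sign_eq, sign_zero, one_mul]

lemma bdd (l n d : ℕ) :
    BddAbove {v : ℝ | ∃ a : (Fin l → Word n) → ℝ, IsFeasible l n d a ∧ v = ∑ x, a x} := by
  refine ⟨2 ^ (n * l), ?_⟩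
  rintro v ⟨a, ha, rfl⟩
  exact sum_le ha

open scoped Classical in
lemma code_feasible (l : ℕ) {n d : ℕ} (C : Submodule (ZMod 2) (Word n))
    (hC : ∀ x ∈ C, x ≠ 0 → d ≤ hammingNorm x) :
    IsFeasible l n d (fun x => if ∀ i, x i ∈ C then 1 else 0) := by
  refine ⟨if_pos fun i => C.zero_mem, fun x => by split_ifs <;> norm_num, ?_, ?_⟩
  · intro x e h1 h2
    rw [if_neg]
    intro hx
    have h3 : ∑ i, e i • x i ∈ C := C.sum_mem fun i _ => C.smul_mem _ (hx i)
    exact absurd h2 (not_lt.2 (hC _ h3 h1))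
  · intro y
    set t := ∑ x : Fin l → Word n, sign y x * (if ∀ i, x i ∈ C then (1 : ℝ) else 0) with ht
    by_cases hy : ∃ x₀ : Fin l → Word n, (∀ i, x₀ i ∈ C) ∧ sign y x₀ ≠ 1
    · obtain ⟨x₀, h0, h1⟩ := hy
      have h2 : t = sign y x₀ * t := by
        conv_rhs => rw [ht]
        rw [Finset.mul_sum, ht, ← Equiv.sum_comp (Equiv.addLeft x₀)]
        refine Finset.sum_congr rfl fun x _ => ?_
        have h3 : sign y (x₀ + x) = sign y x₀ * sign y x := (chi2Char y).map_add_eq_mul x₀ x
        simp only [Equiv.coe_addLeft]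
        rw [h3]
        have h4 : (∀ i, (x₀ + x) i ∈ C) ↔ ∀ i, x i ∈ C := by
          refine forall_congr' fun i => ?_
          rw [Pi.add_apply]
          exact C.add_mem_iff_right (h0 i)
        simp only [h4]
        ring
      have h3 : (1 - sign y x₀) * t = 0 := by linarith
      rcases mul_eq_zero.1 h3 with h | h
      · exact absurd (by linarith : sign y x₀ = 1) h1
      · exact h.ge
    · push Not at hy
      refine Finset.sum_nonneg fun x _ => ?_
      by_cases hx : ∀ i, x i ∈ C
      · rw [if_pos hx, hy x hx]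
        norm_num
      · rw [if_neg hx, mul_zero]

lemma pow_le_value (l : ℕ) {n d : ℕ} (C : Submodule (ZMod 2) (Word n))
    (hC : ∀ x ∈ C, x ≠ 0 → d ≤ hammingNorm x) :
    (2 : ℝ) ^ (Module.finrank (ZMod 2) C * l) ≤ value l n d := by
  classical
  have h1 : (2 : ℝ) ^ (Module.finrank (ZMod 2) C * l) =
      ∑ x : Fin l → Word n, (if ∀ i, x i ∈ C then (1 : ℝ) else 0) := by
    rw [Finset.sum_boole]
    have h2 : (Finset.univ.filter (fun x : Fin l → Word n => ∀ i, x i ∈ C)) =
        Fintype.piFinset (fun _ : Fin l => Finset.univ.filter (fun w : Word n => w ∈ C)) := by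
      ext x
      simp [Fintype.mem_piFinset]
    rw [h2, Fintype.card_piFinset]
    simp only [Finset.prod_const, Finset.card_univ, Fintype.card_fin]
    rw [← Fintype.card_subtype]
    have h3 : Fintype.card {x // x ∈ C} = 2 ^ Module.finrank (ZMod 2) C := by
      have := Module.card_eq_pow_finrank (K := ZMod 2) (V := C)
      rw [ZMod.card] at this
      exact this
    rw [h3, ← pow_mul]
    push_cast
    rfl
  rw [h1]
  exact le_csSup (bdd l n d) ⟨_, code_feasible l C hC, rfl⟩

lemma one_le_value (l n d : ℕ) : 1 ≤ value l n d := by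
  have h := pow_le_value l (n := n) (d := d) (⊥ : Submodule (ZMod 2) (Word n))
    (fun x hx h0 => absurd ((Submodule.mem_bot _).1 hx) h0)
  rwa [finrank_bot, zero_mul, pow_zero] at h

/-- **The hierarchy is valid, but no level reaches the bound of Gilbert and Varshamov.** -/
theorem result :
    (∀ (l n d : ℕ), 1 ≤ l → ∀ C : Submodule (ZMod 2) (Word n),
      (∀ x ∈ C, x ≠ 0 → d ≤ hammingNorm x) → (Module.finrank (ZMod 2) C : ℝ) ≤ dimBound l n d) ∧
    ∀ δ : ℝ, 0 < δ → δ < 1 / 2 → ∃ c : ℝ, 0 < c ∧ ∀ l : ℕ, 1 ≤ l → ∀ᶠ n : ℕ in atTop,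
      (1 - H δ + c / l) * n ≤ dimBound l n ⌈δ * n⌉₊ := by
  refine ⟨fun l n d hl C hC => ?_, fun δ h0 h1 => ?_⟩
  · have hl0 : (0 : ℝ) < l := by exact_mod_cast hl
    have h := pow_le_value l C hC
    unfold dimBound
    rw [le_div_iff₀ hl0, Real.le_logb_iff_rpow_le (by norm_num)
      (lt_of_lt_of_le one_pos (one_le_value l n d))]
    have h2 : (2 : ℝ) ^ ((Module.finrank (ZMod 2) C : ℝ) * l) =
        2 ^ (Module.finrank (ZMod 2) C * l) := by
      rw [← Real.rpow_natCast]
      push_cast
      rfl
    rw [h2]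
    exact h
  · obtain ⟨c, hc, h⟩ := main h0 h1
    refine ⟨c, hc, fun l hl => ?_⟩
    filter_upwards [h l hl] with n hn
    obtain ⟨a, ha0, ha1, ha2, ha3, ha4⟩ := hn
    have hl0 : (0 : ℝ) < l := by exact_mod_cast hl
    have hfeas : IsFeasible l n ⌈δ * n⌉₊ a := ⟨ha0, ha1, ha2, ha3⟩
    have hv : ∑ x, a x ≤ value l n ⌈δ * n⌉₊ := le_csSup (bdd _ _ _) ⟨a, hfeas, rfl⟩
    unfold dimBound
    rw [le_div_iff₀ hl0, Real.le_logb_iff_rpow_le (by norm_num)
      (lt_of_lt_of_le one_pos (one_le_value _ _ _))]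
    refine le_trans (le_of_eq ?_) (ha4.trans hv)
    congr 1
    rw [H_eq]
    field_simp

end Pool.Agent.Results.MP_0430e4_lc.LinearHierarchy
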